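import Pool.Agent.TH703.Cone.Stm

set_option autoImplicit false

/-! # A ball around the barycentre of a convex set -/

namespace Pool.Agent.Q94.CN

open MeasureTheory Set Metric
open scoped ENNReal InnerProductSpace

variable {E : Type*} [NormedAddCommGroup E] [InnerProductSpace ℝ E] [FiniteDimensional ℝ E]
  [MeasurableSpace E] [BorelSpace E]

/-- a slab of width `1/m` in the ball of radius `R` -/
lemma slab (R : ℝ) (m : ℕ) (hm : 0 < m) (a : E) (ha : ‖a‖ = 1) (α : ℝ) :
    (m : ℝ) * volume.real {q : E | ‖q‖ < R ∧ α ≤ ⟪a, q⟫_ℝ ∧ ⟪a, q⟫_ℝ < α + 1 / m} ≤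
      volume.real (ball (0 : E) (R + 1)) := by
  set S : Set E := {q : E | ‖q‖ < R ∧ α ≤ ⟪a, q⟫_ℝ ∧ ⟪a, q⟫_ℝ < α + 1 / m} with hS
  have hm' : (0 : ℝ) < m := by exact_mod_cast hm
  have hSm : MeasurableSet S := by
    have h1 : Continuous fun q : E => ⟪a, q⟫_ℝ := continuous_const.inner continuous_id
    exact (measurableSet_lt continuous_norm.measurable measurable_const).inter
      ((measurableSet_le measurable_const h1.measurable).inter
        (measurableSet_lt h1.measurable measurable_const))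
  let T : ℕ → Set E := fun k => (fun q => (-((k : ℝ) / m) • a) + q) ⁻¹' S
  have hT : ∀ k, volume.real (T k) = volume.real S := by
    intro k
    unfold Measure.real
    rw [measure_preimage_add]
  have hTm : ∀ k, MeasurableSet (T k) := fun k => (measurable_const_add _) hSm
  have hin : ∀ (k : ℕ) (q : E), ⟪a, (-((k : ℝ) / m) • a) + q⟫_ℝ = ⟪a, q⟫_ℝ - k / m := by
    intro k q
    rw [inner_add_right, inner_smul_right, real_inner_self_eq_norm_sq, ha]
    ring
  have hd : Set.PairwiseDisjoint (↑(Finset.range m) : Set ℕ) T := by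
    intro i _ j _ hij
    rw [Function.onFun, Set.disjoint_left]
    rintro q hq1 hq2
    have h1 : α ≤ ⟪a, q⟫_ℝ - i / m ∧ ⟪a, q⟫_ℝ - i / m < α + 1 / m := by
      have := hq1.2
      rwa [hin] at this
    have h2 : α ≤ ⟪a, q⟫_ℝ - j / m ∧ ⟪a, q⟫_ℝ - j / m < α + 1 / m := by
      have := hq2.2
      rwa [hin] at this
    have h3 : ((i : ℝ) - j) / m < 1 / m := by rw [sub_div]; linarith [h1.1, h2.2]
    have h4 : ((j : ℝ) - i) / m < 1 / m := by rw [sub_div]; linarith [h2.1, h1.2]
    rw [div_lt_div_iff_of_pos_right hm'] at h3 h4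
    have h5 : (i : ℝ) < j + 1 := by linarith
    have h6 : (j : ℝ) < i + 1 := by linarith
    have h7 : i < j + 1 := by exact_mod_cast h5
    have h8 : j < i + 1 := by exact_mod_cast h6
    omega
  have hsub : (⋃ k ∈ Finset.range m, T k) ⊆ ball (0 : E) (R + 1) := by
    intro q hq
    simp only [mem_iUnion, Finset.mem_range] at hq
    obtain ⟨k, hk, hq⟩ := hq
    have h1 : ‖(-((k : ℝ) / m) • a) + q‖ < R := hq.1
    have h2 : ‖((k : ℝ) / m) • a‖ ≤ 1 := by
      rw [norm_smul, ha, mul_one, Real.norm_eq_abs, abs_of_nonneg (by positivity),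
        div_le_one hm']
      exact_mod_cast hk.le
    have h3 : q = ((k : ℝ) / m) • a + ((-((k : ℝ) / m) • a) + q) := by
      rw [neg_smul]; abel
    rw [mem_ball_zero_iff, h3]
    calc _ ≤ ‖((k : ℝ) / m) • a‖ + ‖(-((k : ℝ) / m) • a) + q‖ := norm_add_le _ _
      _ < R + 1 := by linarith
  have h := measureReal_mono hsub (by exact measure_ball_lt_top.ne) (μ := volume)
  have hTf : ∀ k ∈ Finset.range m, volume (T k) ≠ ⊤ := by
    intro k _
    have hSfin : volume S ≠ ⊤ := by
      refine ((measure_mono ?_).trans_lt (measure_ball_lt_top (μ := volume) (x := (0 : E))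
        (r := R))).ne
      intro q hq
      exact mem_ball_zero_iff.2 hq.1
    have h1 : volume (T k) = volume S := measure_preimage_add _ _ _
    rwa [h1]
  rw [measureReal_biUnion_finset hd (fun k _ => hTm k) hTf] at h
  simpa [hT] using h

/-- a ball of fixed radius around the barycentre -/
theorem bary_ball (R V0 : ℝ) (hV0 : 0 < V0) : ∃ δ : ℝ, 0 < δ ∧ ∀ Q : Set E, IsOpen Q →
    Convex ℝ Q → Q ⊆ ball 0 R → V0 ≤ volume.real Q →
    ball ((volume.real Q)⁻¹ • ∫ z in Q, z) δ ⊆ Q := by
  obtain ⟨m, hm⟩ := exists_nat_gt (max 0 (2 * volume.real (ball (0 : E) (R + 1)) / V0))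
  have hm0 : (0 : ℝ) < m := (le_max_left _ _).trans_lt hm
  have hmn : 0 < m := by exact_mod_cast hm0
  have hm1 : 2 * volume.real (ball (0 : E) (R + 1)) < m * V0 := by
    have := (le_max_right _ _).trans_lt hm
    rwa [div_lt_iff₀ hV0] at this
  refine ⟨1 / (2 * m), by positivity, ?_⟩
  intro Q hQo hQc hQb hV p hp
  by_contra hpQ
  have hfin : volume Q ≠ ⊤ := (measure_mono hQb).trans_lt measure_ball_lt_top |>.ne
  have hV1 : 0 < volume.real Q := hV0.trans_le hV
  obtain ⟨f, hf⟩ := geometric_hahn_banach_open_point hQc hQo hpQ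
  have hne : Q.Nonempty := by
    rw [nonempty_iff_ne_empty]
    rintro rfl
    simp at hV1
  obtain ⟨q0, hq0⟩ := hne
  obtain ⟨a', ha'⟩ : ∃ a' : E, ∀ q, f q = ⟪a', q⟫_ℝ :=
    ⟨(InnerProductSpace.toDual ℝ E).symm f, fun q => by
      rw [InnerProductSpace.toDual_symm_apply]⟩
  have ha0 : a' ≠ 0 := by
    rintro rfl
    have := hf q0 hq0
    simp [ha'] at this
  have hna : 0 < ‖a'‖ := norm_pos_iff.2 ha0
  set a : E := (‖a'‖)⁻¹ • a' with haa
  have ha1 : ‖a‖ = 1 := by
    rw [haa, norm_smul, norm_inv, norm_norm, inv_mul_cancel₀ hna.ne']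
  have hsep : ∀ q ∈ Q, ⟪a, q⟫_ℝ < ⟪a, p⟫_ℝ := by
    intro q hq
    have := hf q hq
    rw [ha', ha'] at this
    rw [haa, real_inner_smul_left, real_inner_smul_left]
    exact mul_lt_mul_of_pos_left this (inv_pos.2 hna)
  set zb : E := (volume.real Q)⁻¹ • ∫ z in Q, z with hzb
  have hint : IntegrableOn (fun z : E => z) Q := by
    have h1 : IntegrableOn (fun z : E => z) (closedBall 0 R) :=
      continuous_id.continuousOn.integrableOn_compact (isCompact_closedBall _ _)
    exact h1.mono_set (hQb.trans ball_subset_closedBall)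
  have hinta : IntegrableOn (fun z : E => ⟪a, z⟫_ℝ) Q :=
    (innerSL ℝ a).integrable_comp hint
  have hav : ∫ z in Q, ⟪a, z⟫_ℝ = volume.real Q * ⟪a, zb⟫_ℝ := by
    have h1 : ∫ z in Q, ⟪a, z⟫_ℝ = ⟪a, ∫ z in Q, z⟫_ℝ :=
      (innerSL ℝ a).integral_comp_comm hint
    rw [h1, hzb, inner_smul_right, ← mul_assoc, mul_inv_cancel₀ hV1.ne', one_mul]
  -- the gap function
  set g : E → ℝ := fun z => ⟪a, p⟫_ℝ - ⟪a, z⟫_ℝ with hg
  have hcint : Integrable (fun _ : E => ⟪a, p⟫_ℝ) (volume.restrict Q) :=
    integrableOn_const hfin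
  have hgint : IntegrableOn g Q := hcint.sub hinta
  have hgi : ∫ z in Q, g z ≤ volume.real Q * (1 / (2 * m)) := by
    have h1 : ∫ z in Q, g z = volume.real Q * (⟪a, p⟫_ℝ - ⟪a, zb⟫_ℝ) := by
      rw [hg, integral_sub hcint hinta, hav, setIntegral_const, smul_eq_mul]
      ring
    rw [h1]
    apply mul_le_mul_of_nonneg_left _ hV1.le
    rw [← inner_sub_right]
    calc ⟪a, p - zb⟫_ℝ ≤ ‖a‖ * ‖p - zb‖ := real_inner_le_norm _ _
      _ ≤ 1 / (2 * m) := by
        rw [ha1, one_mul, ← dist_eq_norm]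
        exact (mem_ball.1 hp).le
  set S : Set E := {q : E | ‖q‖ < R ∧ ⟪a, p⟫_ℝ - 1 / m ≤ ⟪a, q⟫_ℝ ∧
    ⟪a, q⟫_ℝ < (⟪a, p⟫_ℝ - 1 / m) + 1 / m} with hS
  have hslab := slab R m hmn a ha1 (⟪a, p⟫_ℝ - 1 / m)
  rw [← hS] at hslab
  have hSm : MeasurableSet S := by
    have h1 : Continuous fun q : E => ⟪a, q⟫_ℝ := continuous_const.inner continuous_id
    exact (measurableSet_lt continuous_norm.measurable measurable_const).inter
      ((measurableSet_le measurable_const h1.measurable).inter
        (measurableSet_lt h1.measurable measurable_const))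
  -- Q \ S has measure at most half
  have hQS : volume.real (Q \ S) * (1 / m) ≤ ∫ z in Q, g z := by
    have h1 : ∫ z in Q \ S, g z ≤ ∫ z in Q, g z := by
      apply setIntegral_mono_set hgint
      · filter_upwards [ae_restrict_mem hQo.measurableSet] with z hz
        exact (sub_pos.2 (hsep z hz)).le
      · exact (sdiff_subset).eventuallyLE
    refine le_trans ?_ h1
    have h2 : volume.real (Q \ S) * (1 / m) = ∫ z in Q \ S, (1 / m : ℝ) := by
      rw [setIntegral_const, smul_eq_mul]
    rw [h2]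
    apply setIntegral_mono_on
    · exact integrableOn_const ((measure_mono sdiff_subset).trans_lt hfin.lt_top).ne
    · exact hgint.mono_set sdiff_subset
    · exact hQo.measurableSet.diff hSm
    · intro z hz
      by_contra h
      rw [not_le] at h
      apply hz.2
      refine ⟨mem_ball_zero_iff.1 (hQb hz.1), ?_, ?_⟩
      · have : g z = ⟪a, p⟫_ℝ - ⟪a, z⟫_ℝ := rfl
        linarith
      · have := hsep z hz.1
        linarith
  have h1 : volume.real (Q \ S) ≤ volume.real Q / 2 := by
    have h2 := hQS.trans hgi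
    have h3 : volume.real (Q \ S) * (1 / m) ≤ (volume.real Q / 2) * (1 / m) := by
      refine h2.trans (le_of_eq ?_)
      field_simp
    exact le_of_mul_le_mul_right h3 (by positivity)
  have h2 : volume.real Q ≤ volume.real (Q \ S) + volume.real S := by
    have hSfin : volume S ≠ ⊤ := by
      refine ((measure_mono ?_).trans_lt (measure_ball_lt_top (μ := volume) (x := (0 : E))
        (r := R))).ne
      intro q hq
      exact mem_ball_zero_iff.2 hq.1
    calc volume.real Q ≤ volume.real ((Q \ S) ∪ S) := by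
          apply measureReal_mono
          · intro z hz
            by_cases h : z ∈ S
            · exact Or.inr h
            · exact Or.inl ⟨hz, h⟩
          · exact (measure_union_lt_top ((measure_mono sdiff_subset).trans_lt hfin.lt_top)
              hSfin.lt_top).ne
      _ ≤ _ := measureReal_union_le _ _
  have h3 : volume.real Q / 2 ≤ volume.real S := by linarith
  have h4 : (m : ℝ) * (V0 / 2) ≤ m * volume.real S :=
    mul_le_mul_of_nonneg_left (by linarith) hm0.le
  linarith

end Pool.Agent.Q94.CN
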