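import Pool.Agent.TH703.Cone.Stm

set_option autoImplicit false

/-! # Elementary geometry of the body -/

namespace Pool.Agent.Q94.CN

open MeasureTheory Set Metric Pool.Agent.TH703.Cone
open scoped ENNReal InnerProductSpace

variable {b : ℕ}

lemma sq_norm (z : W b) : ‖z‖ ^ 2 = ‖z.fst‖ ^ 2 + ‖z.snd‖ ^ 2 := WithLp.prod_norm_sq_eq_of_L2 z

lemma norm_le (z : W b) : ‖z‖ ≤ ‖z.fst‖ + ‖z.snd‖ := by
  have h := sq_norm z
  nlinarith [norm_nonneg z, norm_nonneg z.fst, norm_nonneg z.snd,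
    mul_nonneg (norm_nonneg z.fst) (norm_nonneg z.snd)]

lemma fst_le (z : W b) : ‖z.fst‖ ≤ ‖z‖ := by
  have h := sq_norm z
  nlinarith [norm_nonneg z, norm_nonneg z.fst, norm_nonneg z.snd]

lemma snd_le (z : W b) : ‖z.snd‖ ≤ ‖z‖ := by
  have h := sq_norm z
  nlinarith [norm_nonneg z, norm_nonneg z.fst, norm_nonneg z.snd]

lemma mem_om {ε : ℝ} {z : W b} : z ∈ Om b ε ↔ ‖z.fst‖ + ‖z.snd‖ / ε < 1 := Iff.rfl

lemma om_open {ε : ℝ} (hε : 0 < ε) : IsOpen (Om b ε) := by
  apply isOpen_lt _ continuous_const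
  fun_prop

lemma om_convex {ε : ℝ} (hε : 0 < ε) : Convex ℝ (Om b ε) := by
  intro z hz w hw s t hs ht hst
  rw [mem_om] at *
  have h1 : ‖(s • z + t • w).fst‖ ≤ s * ‖z.fst‖ + t * ‖w.fst‖ := by
    calc ‖(s • z + t • w).fst‖ = ‖s • z.fst + t • w.fst‖ := rfl
      _ ≤ ‖s • z.fst‖ + ‖t • w.fst‖ := norm_add_le _ _
      _ = _ := by rw [norm_smul, norm_smul, Real.norm_of_nonneg hs, Real.norm_of_nonneg ht]
  have h2 : ‖(s • z + t • w).snd‖ ≤ s * ‖z.snd‖ + t * ‖w.snd‖ := by
    calc ‖(s • z + t • w).snd‖ = ‖s • z.snd + t • w.snd‖ := rfl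
      _ ≤ ‖s • z.snd‖ + ‖t • w.snd‖ := norm_add_le _ _
      _ = _ := by rw [norm_smul, norm_smul, Real.norm_of_nonneg hs, Real.norm_of_nonneg ht]
  have h3 : ‖(s • z + t • w).snd‖ / ε ≤ (s * ‖z.snd‖ + t * ‖w.snd‖) / ε :=
    div_le_div_of_nonneg_right h2 hε.le
  have h4 : (s * ‖z.snd‖ + t * ‖w.snd‖) / ε = s * (‖z.snd‖ / ε) + t * (‖w.snd‖ / ε) := by ring
  rcases hs.eq_or_lt with h0 | h0
  · subst h0
    have ht1 : t = 1 := by linarith
    subst ht1
    simp only [zero_mul, one_mul, zero_add] at *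
    linarith
  · nlinarith [mul_lt_mul_of_pos_left hz h0, mul_le_mul_of_nonneg_left hw.le ht]

lemma om_subset_ball {ε : ℝ} (hε : 0 < ε) : Om b ε ⊆ ball 0 (1 + ε) := by
  intro z hz
  rw [mem_om] at hz
  rw [mem_ball_zero_iff]
  have h1 : 0 ≤ ‖z.snd‖ / ε := div_nonneg (norm_nonneg _) hε.le
  have h2 : ‖z.snd‖ / ε < 1 := by linarith [norm_nonneg z.fst]
  rw [div_lt_one hε] at h2
  linarith [norm_le z]

lemma om_bdd {ε : ℝ} (hε : 0 < ε) : Bornology.IsBounded (Om b ε) :=
  isBounded_ball.subset (om_subset_ball hε)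

lemma om_neg {ε : ℝ} {z : W b} (hz : z ∈ Om b ε) : -z ∈ Om b ε := by
  rw [mem_om] at *
  have h1 : ‖(-z).fst‖ = ‖z.fst‖ := by rw [WithLp.neg_fst, norm_neg]
  have h2 : ‖(-z).snd‖ = ‖z.snd‖ := by rw [WithLp.neg_snd, norm_neg]
  rwa [h1, h2]

lemma om_zero {ε : ℝ} : (0 : W b) ∈ Om b ε := by
  rw [mem_om]
  simp

lemma om_meas {ε : ℝ} (hε : 0 < ε) : MeasurableSet (Om b ε) := (om_open hε).measurableSet

lemma om_fin {ε : ℝ} (hε : 0 < ε) : volume (Om b ε) ≠ ⊤ := (om_bdd hε).measure_lt_top.ne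

/-- Fubini for the volume -/
lemma vol_fib {S : Set (W b)} (hS : MeasurableSet S) : volume S = ∫⁻ x : ℂ, volume (fib S x) := by
  have h1 : MeasurePreserving (@WithLp.ofLp 2 (ℂ × B b)) := WithLp.volume_preserving_ofLp _ _
  have h2 : S = (@WithLp.ofLp 2 (ℂ × B b)) ⁻¹' ((WithLp.toLp 2 : ℂ × B b → W b) ⁻¹' S) := by
    ext z; rfl
  have h3 : MeasurableSet ((WithLp.toLp 2 : ℂ × B b → W b) ⁻¹' S) :=
    (WithLp.prod_continuous_toLp 2 ℂ (B b)).measurable hS
  conv_lhs => rw [h2, h1.measure_preimage h3.nullMeasurableSet]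
  rw [Measure.volume_eq_prod, Measure.prod_apply h3]
  rfl

lemma fib_meas {S : Set (W b)} (hS : MeasurableSet S) (x : ℂ) : MeasurableSet (fib S x) := by
  have h : Continuous fun y : B b => (WithLp.toLp 2 (x, y) : W b) :=
    (WithLp.prod_continuous_toLp 2 ℂ (B b)).comp (continuous_const.prodMk continuous_id)
  exact h.measurable hS

/-- second moments of the last coordinates -/
lemma sq_mom (hb : 1 ≤ b) (e : B b) (he : ‖e‖ = 1) :
    ∫ z in Om b 1, ⟪e, z.snd⟫_ℝ ^ 2 ≤ volume.real (Om b 1) / b := by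
  have hb0 : (0 : ℝ) < b := by exact_mod_cast hb
  have hsym : ∀ i : Fin b, ∫ z in Om b 1, ⟪EuclideanSpace.single i (1 : ℝ), z.snd⟫_ℝ ^ 2 =
      ∫ z in Om b 1, ⟪e, z.snd⟫_ℝ ^ 2 := by
    intro i
    set f : B b := EuclideanSpace.single i (1 : ℝ) with hf
    have hfn : ‖f‖ = 1 := by rw [hf, EuclideanSpace.norm_single]; simp
    let L : B b ≃ₗᵢ[ℝ] B b := (ℝ ∙ (e - f))ᗮ.reflection
    have hL : L e = f := Submodule.reflection_sub (by rw [he, hfn])
    let Φ : W b ≃ₗᵢ[ℝ] W b :=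
      LinearIsometryEquiv.withLpProdCongr 2 (LinearIsometryEquiv.refl ℝ ℂ) L
    have hΦ : MeasurePreserving Φ := Φ.measurePreserving
    have hpre : Φ ⁻¹' (Om b 1) = Om b 1 := by
      ext z
      rw [mem_preimage, mem_om, mem_om]
      have h1 : (Φ z).fst = z.fst := rfl
      have h2 : (Φ z).snd = L z.snd := rfl
      rw [h1, h2, L.norm_map]
    have h := hΦ.setIntegral_preimage_emb Φ.toHomeomorph.measurableEmbedding
      (fun z => ⟪f, z.snd⟫_ℝ ^ 2) (Om b 1)
    rw [hpre] at h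
    rw [← h]
    apply setIntegral_congr_fun (om_meas one_pos)
    intro z _
    have h2 : (Φ z).snd = L z.snd := rfl
    simp only [h2]
    rw [← hL, L.inner_map_map]
  have hint : ∀ f : B b, IntegrableOn (fun z : W b => ⟪f, z.snd⟫_ℝ ^ 2) (Om b 1) := by
    intro f
    have h1 : IntegrableOn (fun z : W b => ⟪f, z.snd⟫_ℝ ^ 2) (closedBall 0 (1 + 1)) := by
      apply ContinuousOn.integrableOn_compact (isCompact_closedBall _ _)
      apply Continuous.continuousOn
      fun_prop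
    exact h1.mono_set ((om_subset_ball one_pos).trans ball_subset_closedBall)
  have hsum : (b : ℝ) * ∫ z in Om b 1, ⟪e, z.snd⟫_ℝ ^ 2 ≤ volume.real (Om b 1) := by
    calc (b : ℝ) * ∫ z in Om b 1, ⟪e, z.snd⟫_ℝ ^ 2 =
        ∑ i : Fin b, ∫ z in Om b 1, ⟪EuclideanSpace.single i (1 : ℝ), z.snd⟫_ℝ ^ 2 := by
          simp_rw [hsym]
          simp
      _ = ∫ z in Om b 1, ∑ i : Fin b, ⟪EuclideanSpace.single i (1 : ℝ), z.snd⟫_ℝ ^ 2 := by
          rw [integral_finsetSum]
          intro i _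
          exact hint _
      _ = ∫ z in Om b 1, ‖z.snd‖ ^ 2 := by
          apply setIntegral_congr_fun (om_meas one_pos)
          intro z _
          simp only
          rw [EuclideanSpace.norm_sq_eq]
          apply Finset.sum_congr rfl
          intro i _
          rw [EuclideanSpace.inner_single_left]
          simp
      _ ≤ ∫ z in Om b 1, (1 : ℝ) := by
          apply setIntegral_mono_on
          · have h1 : IntegrableOn (fun z : W b => ‖z.snd‖ ^ 2) (closedBall 0 (1 + 1)) := by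
              apply ContinuousOn.integrableOn_compact (isCompact_closedBall _ _)
              apply Continuous.continuousOn
              fun_prop
            exact h1.mono_set ((om_subset_ball one_pos).trans ball_subset_closedBall)
          · exact integrableOn_const (om_fin one_pos)
          · exact om_meas one_pos
          · intro z hz
            rw [mem_om] at hz
            have : ‖z.snd‖ < 1 := by
              rw [div_one] at hz
              linarith [norm_nonneg z.fst]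
            nlinarith [norm_nonneg z.snd]
      _ = volume.real (Om b 1) := by rw [setIntegral_const, smul_eq_mul, mul_one]
  rw [le_div_iff₀ hb0]
  linarith

end Pool.Agent.Q94.CN
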