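import Mathlib

set_option autoImplicit false

/-! # Numerical estimates -/

namespace Pool.Agent.Q94.CN

open MeasureTheory Set

lemma exp_169 : 5.39 < Real.exp 1.69 := by
  have h1 : Real.exp 1.69 = Real.exp 1 * Real.exp 0.69 := by
    rw [← Real.exp_add]; norm_num
  have h2 := Real.exp_one_gt_d9
  have h3 : (1.993 : ℝ) ≤ Real.exp 0.69 := by
    have := Real.sum_le_exp_of_nonneg (x := 0.69) (by norm_num) 6
    refine le_trans ?_ this
    simp [Finset.sum_range_succ, Nat.factorial]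
    norm_num
  rw [h1]
  nlinarith

lemma exp_neg8 : Real.exp (-8) ≤ 0.0004 := by
  have h1 : Real.exp 8 = Real.exp 1 ^ 8 := by
    rw [← Real.exp_nat_mul]; norm_num
  have h2 := Real.exp_one_gt_d9
  have h3 : (2500 : ℝ) ≤ Real.exp 8 := by
    rw [h1]
    have : (2.7 : ℝ) ^ 8 ≤ Real.exp 1 ^ 8 := pow_le_pow_left₀ (by norm_num) (by linarith) 8
    norm_num at this ⊢
    linarith
  rw [Real.exp_neg]
  rw [inv_le_comm₀ (Real.exp_pos _) (by norm_num)]
  norm_num at h3 ⊢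
  linarith

lemma half_radius (b : ℕ) (hb : (81000 : ℝ) ≤ b) : ∃ r : ℝ, 0 < r ∧ r < 1 ∧
    (1 - r) ^ (b + 1) * (1 + (b + 1) * r) = 1 / 2 ∧
    2 * Real.pi * r * (1 - r) ^ b ≤ 1.975 / (b + 1) := by
  set a : ℝ := 1.69 / (b + 1) with ha
  have hb0 : (0 : ℝ) < b + 1 := by linarith
  have ha0 : 0 ≤ a := by positivity
  have ha1 : a ≤ 0.0001 := by
    rw [ha, div_le_iff₀ hb0]
    linarith
  set f : ℝ → ℝ := fun r => (1 - r) ^ (b + 1) * (1 + (b + 1) * r) with hf
  have hfc : Continuous f := by fun_prop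
  have hf0 : f 0 = 1 := by simp [hf]
  have hfa : f a < 1 / 2 := by
    have h1 : (1 - a) ^ (b + 1) ≤ Real.exp (-1.69) := by
      have := Real.one_sub_div_pow_le_exp_neg (n := b + 1) (t := 1.69) (by push_cast; linarith)
      push_cast at this
      exact this
    have h2 : 1 + (b + 1) * a = 2.69 := by
      rw [ha]; field_simp; norm_num
    have h3 : Real.exp (-1.69) < 1 / 5.39 := by
      rw [Real.exp_neg, one_div]
      exact inv_strictAnti₀ (by norm_num) exp_169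
    simp only [hf]
    rw [h2]
    have h4 : (1 / 5.39 : ℝ) * 2.69 < 1 / 2 := by norm_num
    nlinarith
  obtain ⟨r, hr, hfr⟩ := intermediate_value_Icc' ha0 hfc.continuousOn
    (show (1 / 2 : ℝ) ∈ Icc (f a) (f 0) from ⟨hfa.le, by rw [hf0]; norm_num⟩)
  have hr0 : 0 < r := by
    rcases hr.1.eq_or_lt with h | h
    · rw [← h, hf0] at hfr
      norm_num at hfr
    · exact h
  have hr1 : r ≤ 0.0001 := hr.2.trans ha1
  refine ⟨r, hr0, by linarith, hfr, ?_⟩
  have hs : (b + 1) * r ≤ 1.69 := by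
    have := hr.2
    rw [ha, le_div_iff₀ hb0] at this
    linarith
  have hf2 : (1 - r) ^ (b + 1) * (1 + (b + 1) * r) = 1 / 2 := hfr
  have h1r : 0 < 1 - r := by linarith
  have hp : 0 < (1 - r) ^ b := by positivity
  rw [le_div_iff₀ hb0]
  have hs0 : 0 ≤ (b + 1) * r := by positivity
  set s := (b + 1) * r with hsd
  have h5 : (1 - r) ^ b * ((1 - r) * (1 + s)) = 1 / 2 := by
    rw [← hf2]; ring
  have h6 : Real.pi * s ≤ 1.975 * ((1 - r) * (1 + s)) := by
    have hpi := Real.pi_lt_d4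
    have h7 : Real.pi * s ≤ 3.1416 * s := mul_le_mul_of_nonneg_right hpi.le hs0
    have h8 : 0.9999 * (1 + s) ≤ (1 - r) * (1 + s) := by
      apply mul_le_mul_of_nonneg_right _ (by linarith)
      linarith
    norm_num at h7 h8 hs ⊢
    linarith
  calc 2 * Real.pi * r * (1 - r) ^ b * (b + 1) = 2 * (1 - r) ^ b * (Real.pi * s) := by
        rw [hsd]; ring
    _ ≤ 2 * (1 - r) ^ b * (1.975 * ((1 - r) * (1 + s))) := by gcongr
    _ = 1.975 * (2 * ((1 - r) ^ b * ((1 - r) * (1 + s)))) := by ring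
    _ = 1.975 := by rw [h5]; norm_num

lemma low_int (b : ℕ) (hb : (81000 : ℝ) ≤ b) :
    1.997 / (b + 1) ≤ 2 * ∫ ρ in (0.001 / (b + 1) : ℝ)..((9 - 1) / b), (1 - ρ) ^ b := by
  have hb0 : (0 : ℝ) < b + 1 := by linarith
  have hb1 : (0 : ℝ) < b := by linarith
  rw [intervalIntegral.integral_comp_sub_left (fun x => x ^ b) 1, integral_pow]
  have h1 : (0.999 : ℝ) ≤ (1 - 0.001 / (b + 1)) ^ (b + 1) := by
    have h := one_add_mul_le_pow (a := -(0.001 / ((b : ℝ) + 1))) (by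
      have : 0.001 / ((b : ℝ) + 1) ≤ 1 := by
        rw [div_le_one hb0]; linarith
      linarith) (b + 1)
    push_cast at h
    have h2 : 1 + ((b : ℝ) + 1) * -(0.001 / ((b : ℝ) + 1)) = 0.999 := by
      field_simp; norm_num
    rw [h2] at h
    refine h.trans (le_of_eq ?_)
    ring
  have h2 : (1 - (9 - 1) / (b : ℝ)) ^ (b + 1) ≤ 0.0004 := by
    have h3 := Real.one_sub_div_pow_le_exp_neg (n := b) (t := 8) (by linarith)
    have h4 : (0 : ℝ) ≤ 1 - 8 / b := by
      rw [sub_nonneg, div_le_one hb1]; linarith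
    have h5 : (1 - 8 / (b : ℝ)) ≤ 1 := by
      have : 0 ≤ 8 / (b : ℝ) := by positivity
      linarith
    norm_num
    calc (1 - 8 / (b : ℝ)) ^ (b + 1) ≤ (1 - 8 / (b : ℝ)) ^ b :=
          pow_le_pow_of_le_one h4 h5 (Nat.le_succ b)
      _ ≤ Real.exp (-8) := h3
      _ ≤ 1 / 2500 := by have := exp_neg8; norm_num at this ⊢; exact this
  rw [div_le_iff₀ hb0]
  have h3 : 2 * (((1 - 0.001 / ((b : ℝ) + 1)) ^ (b + 1) - (1 - (9 - 1) / (b : ℝ)) ^ (b + 1)) /
      ((b : ℝ) + 1)) * ((b : ℝ) + 1) = 2 * ((1 - 0.001 / ((b : ℝ) + 1)) ^ (b + 1) -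
        (1 - (9 - 1) / (b : ℝ)) ^ (b + 1)) := by
    field_simp
  rw [h3]
  norm_num at h1 h2 ⊢
  linarith

end Pool.Agent.Q94.CN
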