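import Pool.Agent.Q94.CN.Strip
import Pool.Agent.Q94.CN.Bary

set_option autoImplicit false

/-! # Cones of large volume contain thick wedges -/

namespace Pool.Agent.Q94.CN

open MeasureTheory Set Metric Pool.Agent.TH703.Cone
open scoped ENNReal InnerProductSpace Pointwise

variable {b : ℕ}

lemma vb_pos {ε : ℝ} (hε : 0 < ε) : 0 < vb b ε := by
  unfold vb
  exact ENNReal.toReal_pos (measure_ball_pos volume _ hε).ne' measure_ball_lt_top.ne

lemma om_vol (hb : 1 ≤ b) {ε : ℝ} (hε : 0 < ε) :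
    volume (Om b ε) = ENNReal.ofReal (vb b ε * (2 * Real.pi / ((b + 1) * (b + 2)))) := by
  have h := t7b b ε 1 hb hε zero_le_one le_rfl
  have h1 : {z : W b | z ∈ Om b ε ∧ ‖z.fst‖ < 1} = Om b ε := by
    ext z
    simp only [mem_ofPred_eq, and_iff_left_iff_imp]
    intro hz
    rw [mem_om] at hz
    have : 0 ≤ ‖z.snd‖ / ε := by positivity
    linarith
  rw [h1] at h
  rw [h]
  congr 2
  simp
  field_simp

lemma om_vol_real (hb : 1 ≤ b) {ε : ℝ} (hε : 0 < ε) :
    volume.real (Om b ε) = vb b ε * (2 * Real.pi / ((b + 1) * (b + 2))) := by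
  rw [measureReal_def, om_vol hb hε, ENNReal.toReal_ofReal]
  have := vb_pos (b := b) hε
  positivity

lemma half_cone (hb : 1 ≤ b) (c : ℝ) (hc : 0 < c) (G : Set (W b)) (hG : IsOpen G)
    (hv : ENNReal.ofReal c * volume (Om b 1) ≤ volume (Om b 1 ∩ G)) :
    ∃ s : ℝ, |s| = 1 ∧
      c / 2 * volume.real (Om b 1) ≤ volume.real (Om b 1 ∩ G ∩ {z | 0 < s * z.fst.re}) := by
  by_contra hcon
  push Not at hcon
  have h1 := hcon 1 (by norm_num)
  have h2 := hcon (-1) (by norm_num)
  have hfin : ∀ T : Set (W b), volume (Om b 1 ∩ T) ≠ ⊤ := fun T =>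
    ((measure_mono inter_subset_left).trans_lt (om_bdd one_pos).measure_lt_top).ne
  have h3 : Om b 1 ∩ G ⊆ (Om b 1 ∩ G ∩ {z | 0 < 1 * z.fst.re}) ∪
      ((Om b 1 ∩ G ∩ {z | 0 < -1 * z.fst.re}) ∪ (Om b 1 ∩ {z | |z.fst.re| ≤ 0})) := by
    intro z hz
    rcases lt_trichotomy z.fst.re 0 with h | h | h
    · right; left
      exact ⟨hz, by simpa using h⟩
    · right; right
      exact ⟨hz.1, by simp [h]⟩
    · left
      exact ⟨hz, by simpa using h⟩
  have h4 : volume.real (Om b 1 ∩ {z : W b | |z.fst.re| ≤ 0}) = 0 := by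
    have := strip hb 0 le_rfl
    rw [mul_zero, zero_div, mul_zero, ENNReal.ofReal_zero] at this
    rw [measureReal_def, le_antisymm this (zero_le), ENNReal.toReal_zero]
  have h5 : volume.real (Om b 1 ∩ G) ≤ volume.real (Om b 1 ∩ G ∩ {z | 0 < 1 * z.fst.re}) +
      (volume.real (Om b 1 ∩ G ∩ {z | 0 < -1 * z.fst.re}) +
        volume.real (Om b 1 ∩ {z | |z.fst.re| ≤ 0})) := by
    have hu : volume ((Om b 1 ∩ G ∩ {z | 0 < 1 * z.fst.re}) ∪
      ((Om b 1 ∩ G ∩ {z | 0 < -1 * z.fst.re}) ∪ (Om b 1 ∩ {z | |z.fst.re| ≤ 0}))) ≠ ⊤ := by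
      refine ((measure_mono ?_).trans_lt (om_bdd (b := b) one_pos).measure_lt_top).ne
      intro z hz
      rcases hz with hz | hz | hz
      · exact hz.1.1
      · exact hz.1.1
      · exact hz.1
    refine (measureReal_mono h3 hu).trans ?_
    refine (measureReal_union_le _ _).trans ?_
    gcongr
    exact measureReal_union_le _ _
  have h6 : c * volume.real (Om b 1) ≤ volume.real (Om b 1 ∩ G) := by
    have := ENNReal.toReal_mono (hfin G) hv
    rwa [ENNReal.toReal_mul, ENNReal.toReal_ofReal hc.le] at this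
  rw [h4] at h5
  linarith

theorem wedge_one (b : ℕ) (c K r₀ : ℝ) (hc : 0 < c) (hc1 : c ≤ 1) (hK : 2 ≤ K)
    (hb : 1000 * K ^ 2 / c ^ 3 < b) (hr : 0 < r₀) :
    ∃ σ η : ℝ, 0 < σ ∧ σ ≤ 1 / 2 ∧ 0 < η ∧ ∀ (G : Set (W b)),
      IsOpen G → (∀ z ∈ G, ∀ t : ℝ, 0 < t → t • z ∈ G) → (∀ z ∈ G, ∀ w ∈ G, z + w ∈ G) →
      ENNReal.ofReal c * volume (Om b 1) ≤ volume (Om b 1 ∩ G) →
      ∃ u : ℂ, ‖u‖ = 1 ∧ ∀ x ∈ Wp u σ r₀ ((K - 1) / b),
        ENNReal.ofReal (η * vb b 1) ≤ volume (fib (Om b 1 ∩ G) x) := by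
  have hc3 : 0 < c ^ 3 := by positivity
  have hc31 : c ^ 3 ≤ 1 := pow_le_one₀ hc.le hc1
  have hbc : 1000 * K ^ 2 < b * c ^ 3 := (div_lt_iff₀ hc3).1 hb
  have hb0 : (0 : ℝ) ≤ b := Nat.cast_nonneg b
  have hb1000 : 1000 * K ^ 2 < (b : ℝ) := by nlinarith
  have hb4000 : (4000 : ℝ) < b := by nlinarith
  have hb1 : 1 ≤ b := by
    have : (1 : ℝ) ≤ b := by linarith
    exact_mod_cast this
  set ω := volume.real (Om b 1) with hω
  set v := vb b 1 with hv
  have hv0 : 0 < v := vb_pos one_pos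
  have hωv : ω = v * (2 * Real.pi / ((b + 1) * (b + 2))) := om_vol_real hb1 one_pos
  have hω0 : 0 < ω := by rw [hωv]; positivity
  obtain ⟨δ, hδ, hball⟩ := bary_ball (E := W b) 2 (c / 2 * ω) (by positivity)
  set s' := min (r₀ * δ / 2) (1 / 4) with hs'
  have hs'0 : 0 < s' := lt_min (by positivity) (by norm_num)
  refine ⟨min (1 / 2) (δ / 8), s' ^ b, lt_min (by norm_num) (by positivity), min_le_left _ _,
    by positivity, ?_⟩
  intro G hG hGt hGa hGv
  obtain ⟨s, hs, hsV⟩ := half_cone hb1 c hc G hG hGv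
  set Q := Om b 1 ∩ G ∩ {z | 0 < s * z.fst.re} with hQ
  have hQo : IsOpen Q := by
    have hcs : Continuous fun z : W b => s * z.fst.re := by fun_prop
    exact ((om_open one_pos).inter hG).inter (isOpen_lt continuous_const hcs)
  have hQOm : Q ⊆ Om b 1 := fun z hz => hz.1.1
  have hGconv : Convex ℝ G := by
    intro z hz w hw p q hp hq hpq
    rcases hp.eq_or_lt with h0 | h0
    · subst h0
      have : q = 1 := by linarith
      subst this
      simpa using hw
    rcases hq.eq_or_lt with h1 | h1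
    · subst h1
      have : p = 1 := by linarith
      subst this
      simpa using hz
    exact hGa _ (hGt z hz p h0) _ (hGt w hw q h1)
  have hQc : Convex ℝ Q := by
    apply ((om_convex one_pos).inter hGconv).inter
    intro z hz w hw p q hp hq hpq
    have h1 : 0 < s * z.fst.re := hz
    have h2 : 0 < s * w.fst.re := hw
    have h3 : s * (p • z + q • w : W b).fst.re = p * (s * z.fst.re) + q * (s * w.fst.re) := by
      rw [WithLp.add_fst, WithLp.smul_fst, WithLp.smul_fst]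
      simp
      ring
    change 0 < s * (p • z + q • w : W b).fst.re
    rw [h3]
    rcases hp.eq_or_lt with h0 | h0
    · subst h0
      have : q = 1 := by linarith
      subst this
      simpa using h2
    · have : 0 ≤ q * (s * w.fst.re) := by positivity
      have : 0 < p * (s * z.fst.re) := by positivity
      linarith
  set V := volume.real Q with hV
  have hV0 : 0 < V := lt_of_lt_of_le (by positivity) hsV
  have hQb : Q ⊆ ball 0 2 := by
    refine hQOm.trans ((om_subset_ball one_pos).trans ?_)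
    norm_num
  have hbz := hball Q hQo hQc hQb hsV
  set zb : W b := V⁻¹ • ∫ z in Q, z with hzb
  have hzbQ : zb ∈ Q := hbz (mem_ball_self hδ)
  -- coordinates of the barycentre
  have hid : IntegrableOn (fun z : W b => z) Q := by
    have : IntegrableOn (fun z : W b => z) (closedBall 0 2) :=
      continuous_id.continuousOn.integrableOn_compact (isCompact_closedBall _ _)
    exact this.mono_set (hQb.trans ball_subset_closedBall)
  have hsnd : zb.snd = V⁻¹ • ∫ z in Q, z.snd := by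
    have h := (WithLp.sndL 2 ℝ ℂ (B b)).integral_comp_comm hid
    have h' : (∫ z in Q, z.snd) = (∫ z in Q, z).snd := h
    rw [h', hzb, WithLp.smul_snd]
  have hfst : s * zb.fst.re = V⁻¹ * ∫ z in Q, s * z.fst.re := by
    have h := (Complex.reCLM.comp (WithLp.fstL 2 ℝ ℂ (B b))).integral_comp_comm hid
    have h' : (∫ z in Q, z.fst.re) = (∫ z in Q, z).fst.re := h
    rw [integral_const_mul, h', hzb, WithLp.smul_fst]
    simp
    ring
  set q := V / ω with hq
  have hqc : c / 2 ≤ q := by rw [hq, le_div_iff₀ hω0]; exact hsV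
  have hq0 : 0 < q := by positivity
  have hVq : V = q * ω := by rw [hq]; field_simp
  have hX : Real.pi * q / (8 * (b + 2)) ≤ s * zb.fst.re := by
    set τ := V * (b + 1) / (8 * v) with hτ
    have hτ0 : 0 ≤ τ := by positivity
    have h1 := fst_mom hb1 τ s hτ0 hs Q hQo.measurableSet hQOm (fun z hz => hz.2)
    rw [hfst]
    have h2 : V⁻¹ * (τ * (V - v * (4 * τ / (b + 1)))) = Real.pi * q / (8 * (b + 2)) := by
      rw [hτ, hVq, hωv]
      field_simp
      ring
    rw [← h2]
    exact mul_le_mul_of_nonneg_left h1 (by positivity)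
  have hX0 : 0 < Real.pi * q / (8 * (b + 2)) := by positivity
  set X := ‖zb.fst‖ with hXd
  have hXge : Real.pi * q / (8 * (b + 2)) ≤ X := by
    refine hX.trans ?_
    calc s * zb.fst.re ≤ |s * zb.fst.re| := le_abs_self _
      _ = |zb.fst.re| := by rw [abs_mul, hs, one_mul]
      _ ≤ ‖zb.fst‖ := Complex.abs_re_le_norm _
  have hX0' : 0 < X := lt_of_lt_of_le hX0 hXge
  have hX1 : X < 1 := by
    have := hQOm hzbQ
    rw [mem_om] at this
    have h2 : 0 ≤ ‖zb.snd‖ / 1 := by positivity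
    linarith
  have hY : ‖zb.snd‖ ^ 2 ≤ 1 / (b * q) := by
    have h1 := snd_mom hb1 Q hQo.measurableSet hQOm hV0
    rw [hsnd, norm_smul, mul_pow, norm_inv, Real.norm_of_nonneg hV0.le]
    calc V⁻¹ ^ 2 * ‖∫ z in Q, z.snd‖ ^ 2 ≤ V⁻¹ ^ 2 * (V * (ω / b)) :=
          mul_le_mul_of_nonneg_left h1 (by positivity)
      _ = 1 / (b * q) := by
          rw [hq]
          field_simp
  have hq3 : 125 * K ^ 2 ≤ q ^ 3 * b := by
    have h1 : (c / 2) ^ 3 ≤ q ^ 3 := pow_le_pow_left₀ (by positivity) hqc 3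
    have h2 : (c / 2) ^ 3 * b ≤ q ^ 3 * b := mul_le_mul_of_nonneg_right h1 hb0
    have h3 : (c / 2) ^ 3 * b = b * c ^ 3 / 8 := by ring
    linarith
  set R := (K - 1) / b with hR
  have hbp : (0 : ℝ) < b := by linarith
  have hR14 : R ≤ 1 / 4 := by
    rw [hR, div_le_iff₀ hbp]
    nlinarith
  have hR0 : 0 ≤ R := div_nonneg (by linarith) hb0
  have hRY : R * ‖zb.snd‖ ≤ X / 2 := by
    apply abs_le_of_sq_le_sq' _ (by positivity) |>.2
    calc (R * ‖zb.snd‖) ^ 2 = R ^ 2 * ‖zb.snd‖ ^ 2 := by ring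
      _ ≤ R ^ 2 * (1 / (b * q)) := mul_le_mul_of_nonneg_left hY (by positivity)
      _ ≤ (Real.pi * q / (8 * (b + 2)) / 2) ^ 2 := by
          rw [hR]
          rw [show ((K - 1) / b) ^ 2 * (1 / (b * q)) = (K - 1) ^ 2 / (b ^ 3 * q) by
            field_simp]
          rw [show (Real.pi * q / (8 * (b + 2)) / 2) ^ 2 =
            Real.pi ^ 2 * q ^ 2 / (256 * (b + 2) ^ 2) by field_simp; ring]
          rw [div_le_div_iff₀ (by positivity) (by positivity)]
          have hpi : (9 : ℝ) ≤ Real.pi ^ 2 := by nlinarith [Real.pi_gt_three]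
          have h1 : (K - 1) ^ 2 ≤ K ^ 2 := by nlinarith
          have h2 : 256 * ((b : ℝ) + 2) ^ 2 ≤ 1125 * b ^ 2 := by nlinarith
          calc (K - 1) ^ 2 * (256 * ((b : ℝ) + 2) ^ 2) ≤ K ^ 2 * (1125 * b ^ 2) := by
                apply mul_le_mul h1 h2 (by positivity) (by positivity)
            _ = 9 * (125 * K ^ 2) * b ^ 2 := by ring
            _ ≤ Real.pi ^ 2 * (q ^ 3 * b) * b ^ 2 := by gcongr
            _ = Real.pi ^ 2 * q ^ 2 * (b ^ 3 * q) := by ring
      _ ≤ (X / 2) ^ 2 := by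
          apply pow_le_pow_left₀ (by positivity)
          linarith
  -- the direction
  set u : ℂ := (starRingEnd ℂ) zb.fst / (X : ℂ) with hu
  have hXc : (X : ℂ) ≠ 0 := by exact_mod_cast hX0'.ne'
  have hun : ‖u‖ = 1 := by
    rw [hu, norm_div, Complex.norm_conj, Complex.norm_real, Real.norm_of_nonneg hX0'.le,
      ← hXd, div_self hX0'.ne']
  have hzu : zb.fst * u = X := by
    rw [hu, mul_div_assoc', Complex.mul_conj, Complex.normSq_eq_norm_sq, ← hXd]
    push_cast
    field_simp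
  refine ⟨u, hun, ?_⟩
  rintro x ⟨hx1, hx2, hx3, hx4⟩
  set ρ := ‖x‖ with hρ
  have hρ0 : 0 < ρ := lt_of_lt_of_le hr hx1
  set t := ρ / X with ht
  have ht0 : 0 < t := by positivity
  have htρ : ρ ≤ t := by
    rw [ht, le_div_iff₀ hX0']
    nlinarith
  have hsub : ball (t • zb.snd) s' ⊆ fib (Om b 1 ∩ G) x := by
    intro y hy
    rw [mem_ball, dist_eq_norm] at hy
    set w : W b := WithLp.toLp 2 (x, y) with hw
    have hwf : w.fst = x := rfl
    have hws : w.snd = y := rfl
    have hty : t * ‖zb.snd‖ ≤ 1 / 2 := by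
      rw [ht, div_mul_eq_mul_div, div_le_iff₀ hX0']
      have : ρ * ‖zb.snd‖ ≤ R * ‖zb.snd‖ := mul_le_mul_of_nonneg_right hx2 (norm_nonneg _)
      linarith
    refine ⟨?_, ?_⟩
    · rw [mem_om]
      change ‖w.fst‖ + ‖w.snd‖ / 1 < 1
      rw [hwf, hws, div_one, ← hρ]
      have h1 : ‖y‖ ≤ ‖y - t • zb.snd‖ + ‖t • zb.snd‖ := by
        have := norm_add_le (y - t • zb.snd) (t • zb.snd)
        rwa [sub_add_cancel] at this
      rw [norm_smul, Real.norm_of_nonneg ht0.le] at h1
      have h2 : s' ≤ 1 / 4 := min_le_right _ _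
      linarith
    · change w ∈ G
      have h1 : ‖w - t • zb‖ < t * δ := by
        have h2 := norm_le (w - t • zb)
        have h3 : (w - t • zb).fst = x - (t : ℂ) * zb.fst := by
          rw [WithLp.sub_fst, WithLp.smul_fst, hwf, Complex.real_smul]
        have h4 : (w - t • zb).snd = y - t • zb.snd := by
          rw [WithLp.sub_snd, WithLp.smul_snd, hws]
        have h5 : ‖x - (t : ℂ) * zb.fst‖ ≤ 2 * (min (1 / 2) (δ / 8)) * ρ := by
          have h6 : ‖x - (t : ℂ) * zb.fst‖ = ‖x * u - ρ‖ := by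
            have h7 : (x - (t : ℂ) * zb.fst) * u = x * u - ρ := by
              rw [sub_mul, mul_assoc, hzu, ht]
              push_cast
              field_simp
            rw [← h7, norm_mul, hun, mul_one]
          rw [h6]
          have h8 : ‖x * u - (ρ : ℂ)‖ ≤ |(x * u - (ρ : ℂ)).re| + |(x * u - (ρ : ℂ)).im| :=
            Complex.norm_le_abs_re_add_abs_im _
          have h9 : (x * u - (ρ : ℂ)).re = (x * u).re - ρ := by simp
          have h10 : (x * u - (ρ : ℂ)).im = (x * u).im := by simp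
          rw [h9, h10] at h8
          have h11 : ‖x * u‖ = ρ := by rw [norm_mul, hun, mul_one]
          have h12 : ρ ≤ |(x * u).re| + |(x * u).im| := by
            rw [← h11]; exact Complex.norm_le_abs_re_add_abs_im _
          have h13 : |(x * u).re| ≤ ρ := by
            rw [← h11]; exact Complex.abs_re_le_norm _
          rw [abs_of_pos hx3] at h12 h13
          have h14 : |(x * u).re - ρ| ≤ |(x * u).im| := by
            rw [abs_of_nonpos (by linarith)]
            linarith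
          linarith
        rw [h3, h4] at h2
        have h6 : 2 * (min (1 / 2) (δ / 8)) * ρ ≤ δ / 4 * t := by
          have : min (1 / 2) (δ / 8) ≤ δ / 8 := min_le_right _ _
          nlinarith
        have h7 : s' ≤ t * δ / 2 := by
          have h8 : s' ≤ r₀ * δ / 2 := min_le_left _ _
          nlinarith
        nlinarith
      have h2 : t⁻¹ • w ∈ ball zb δ := by
        rw [mem_ball, dist_eq_norm]
        have h3 : t⁻¹ • w - zb = t⁻¹ • (w - t • zb) := by
          rw [smul_sub, smul_smul, inv_mul_cancel₀ ht0.ne', one_smul]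
        rw [h3, norm_smul, norm_inv, Real.norm_of_nonneg ht0.le, inv_mul_lt_iff₀ ht0]
        exact h1
      have h3 := hGt _ (hbz h2).1.2 t ht0
      rwa [smul_smul, mul_inv_cancel₀ ht0.ne', one_smul] at h3
  refine le_trans ?_ (measure_mono hsub)
  rw [Measure.addHaar_ball_of_pos volume _ hs'0]
  rw [ENNReal.ofReal_mul (by positivity)]
  have h1 : Module.finrank ℝ (B b) = b := by simp
  rw [h1]
  gcongr
  rw [hv]
  unfold vb
  rw [ofReal_measureReal measure_ball_lt_top.ne]

/-- general `ε` by scaling of the fibres -/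
theorem t6 (b : ℕ) (c K r₀ : ℝ) (hc : 0 < c) (hc1 : c ≤ 1) (hK : 2 ≤ K)
    (hb : 1000 * K ^ 2 / c ^ 3 < b) (hr : 0 < r₀) :
    ∃ σ η : ℝ, 0 < σ ∧ σ ≤ 1 / 2 ∧ 0 < η ∧ ∀ (ε : ℝ) (G : Set (W b)), 0 < ε →
      IsOpen G → (∀ z ∈ G, ∀ t : ℝ, 0 < t → t • z ∈ G) → (∀ z ∈ G, ∀ w ∈ G, z + w ∈ G) →
      ENNReal.ofReal c * volume (Om b ε) ≤ volume (Om b ε ∩ G) →
      ∃ u : ℂ, ‖u‖ = 1 ∧ ∀ x ∈ Wp u σ r₀ ((K - 1) / b),
        ENNReal.ofReal (η * vb b ε) ≤ volume (fib (Om b ε ∩ G) x) := by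
  obtain ⟨σ, η, hσ, hσ2, hη, h⟩ := wedge_one b c K r₀ hc hc1 hK hb hr
  refine ⟨σ, η, hσ, hσ2, hη, ?_⟩
  intro ε G hε hG hGt hGa hGv
  set Φ : W b → W b := fun z => WithLp.toLp 2 (z.fst, ε • z.snd) with hΦ
  have hΦc : Continuous Φ := by
    apply (WithLp.prod_continuous_toLp 2 ℂ (B b)).comp
    fun_prop
  set G' : Set (W b) := Φ ⁻¹' G with hG'
  have hfib : ∀ (T T' : Set (W b)), T' = Φ ⁻¹' T → ∀ x : ℂ,
      volume (fib T x) = ENNReal.ofReal (ε ^ b) * volume (fib T' x) := by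
    intro T T' hT x
    have h1 : fib T x = ε • fib T' x := by
      ext y
      rw [mem_smul_set_iff_inv_smul_mem₀ hε.ne']
      change _ ↔ (WithLp.toLp 2 (x, ε⁻¹ • y) : W b) ∈ T'
      rw [hT]
      change _ ↔ (WithLp.toLp 2 (x, ε • (ε⁻¹ • y)) : W b) ∈ T
      rw [smul_smul, mul_inv_cancel₀ hε.ne', one_smul]
      rfl
    rw [h1, Measure.addHaar_smul, abs_of_nonneg (by positivity)]
    simp
  have hOm : Om b 1 = Φ ⁻¹' (Om b ε) := by
    ext z
    rw [mem_preimage, mem_om, mem_om]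
    change _ ↔ ‖z.fst‖ + ‖ε • z.snd‖ / ε < 1
    rw [norm_smul, Real.norm_of_nonneg hε.le, mul_div_cancel_left₀ _ hε.ne', div_one]
  have hvol : ∀ (T T' : Set (W b)), IsOpen T → IsOpen T' → T' = Φ ⁻¹' T →
      volume T = ENNReal.ofReal (ε ^ b) * volume T' := by
    intro T T' h1 h2 h3
    rw [vol_fib h1.measurableSet, vol_fib h2.measurableSet,
      ← lintegral_const_mul' _ _ ENNReal.ofReal_ne_top]
    exact lintegral_congr fun x => hfib T T' h3 x
  have hG'o : IsOpen G' := hG.preimage hΦc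
  have hOG : Om b 1 ∩ G' = Φ ⁻¹' (Om b ε ∩ G) := by rw [preimage_inter, ← hOm]
  have he0 : ENNReal.ofReal (ε ^ b) ≠ 0 := by
    rw [Ne, ENNReal.ofReal_eq_zero, not_le]
    positivity
  have hthree : (∀ z ∈ G', ∀ t : ℝ, 0 < t → t • z ∈ G') ∧ (∀ z ∈ G', ∀ w ∈ G', z + w ∈ G') ∧
      ENNReal.ofReal c * volume (Om b 1) ≤ volume (Om b 1 ∩ G') := by
    refine ⟨?_, ?_, ?_⟩
    · intro z hz t ht
      have h1 : Φ (t • z) = t • Φ z := by
        apply (WithLp.ofLp_injective 2)
        refine Prod.ext rfl ?_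
        change ε • (t • z.snd) = t • (ε • z.snd)
        rw [smul_comm]
      change Φ (t • z) ∈ G
      rw [h1]
      exact hGt _ hz t ht
    · intro z hz w hw
      have h1 : Φ (z + w) = Φ z + Φ w := by
        apply (WithLp.ofLp_injective 2)
        refine Prod.ext rfl ?_
        change ε • (z.snd + w.snd) = ε • z.snd + ε • w.snd
        rw [smul_add]
      change Φ (z + w) ∈ G
      rw [h1]
      exact hGa _ hz _ hw
    · rw [hvol _ _ (om_open hε) (om_open one_pos) hOm,
        hvol _ _ ((om_open hε).inter hG) ((om_open one_pos).inter hG'o) hOG] at hGv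
      rw [mul_left_comm] at hGv
      exact (ENNReal.mul_le_mul_iff_right he0 ENNReal.ofReal_ne_top).1 hGv
  obtain ⟨u, hu, hux⟩ := h G' hG'o hthree.1 hthree.2.1 hthree.2.2
  · refine ⟨u, hu, ?_⟩
    intro x hx
    rw [hfib _ _ hOG x]
    have h1 : vb b ε = ε ^ b * vb b 1 := by
      unfold vb
      rw [measureReal_def, measureReal_def, Measure.addHaar_ball_of_pos volume _ hε,
        ENNReal.toReal_mul, ENNReal.toReal_ofReal (by positivity)]
      simp
    rw [h1, show η * (ε ^ b * vb b 1) = ε ^ b * (η * vb b 1) by ring,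
      ENNReal.ofReal_mul (by positivity)]
    gcongr
    exact hux x hx

end Pool.Agent.Q94.CN
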