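import Pool.Agent.TH703.Cone.Div

set_option autoImplicit false

/-! # Transfer of the question to arbitrary Euclidean spaces -/

namespace Pool.Agent.Q94.CN

open MeasureTheory Set Metric Pool.Agent.TH703.Cone
open scoped ENNReal InnerProductSpace

/-- the body of the frozen statement for a fixed constant -/
def FH (c : ℝ) : Prop :=
  ∀ (n : ℕ) (Ω E : Set (EuclideanSpace ℝ (Fin n))),
        IsOpen Ω → Ω.Nonempty → Convex ℝ Ω → Bornology.IsBounded Ω →
        (∀ x ∈ Ω, -x ∈ Ω) →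
        MeasurableSet E → E ⊆ Ω →
        MeasureTheory.volume E = MeasureTheory.volume Ω / 2 →
        (∀ F : Set (EuclideanSpace ℝ (Fin n)), MeasurableSet F → F ⊆ Ω →
          MeasureTheory.volume F = MeasureTheory.volume E →
          ∀ φ : EuclideanSpace ℝ (Fin n) → EuclideanSpace ℝ (Fin n),
            ContDiff ℝ 1 φ → HasCompactSupport φ → tsupport φ ⊆ Ω →
            (∀ x, ‖φ x‖ ≤ 1) →
            ∀ ε : ℝ, 0 < ε →
              ∃ ψ : EuclideanSpace ℝ (Fin n) → EuclideanSpace ℝ (Fin n),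
                ContDiff ℝ 1 ψ ∧ HasCompactSupport ψ ∧ tsupport ψ ⊆ Ω ∧
                (∀ x, ‖ψ x‖ ≤ 1) ∧
                (∫ x in E, LinearMap.trace ℝ (EuclideanSpace ℝ (Fin n))
                    (fderiv ℝ φ x).toLinearMap) ≤
                  (∫ x in F, LinearMap.trace ℝ (EuclideanSpace ℝ (Fin n))
                    (fderiv ℝ ψ x).toLinearMap) + ε) →
        ∃ Γ : ConvexCone ℝ (EuclideanSpace ℝ (Fin n)),
          MeasureTheory.volume ((Ω ∩ (Γ : Set (EuclideanSpace ℝ (Fin n)))) \ E) = 0 ∧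
          MeasureTheory.volume ((Ω ∩ {x | -x ∈ Γ}) ∩ E) = 0 ∧
          ENNReal.ofReal c * MeasureTheory.volume Ω ≤
            MeasureTheory.volume (Ω ∩ (Γ : Set (EuclideanSpace ℝ (Fin n))))

variable {E F : Type*} [NormedAddCommGroup E] [InnerProductSpace ℝ E] [FiniteDimensional ℝ E]
  [MeasurableSpace E] [BorelSpace E]
  [NormedAddCommGroup F] [InnerProductSpace ℝ F] [FiniteDimensional ℝ F]
  [MeasurableSpace F] [BorelSpace F]

omit [MeasurableSpace E] [BorelSpace E] [MeasurableSpace F] [BorelSpace F] in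
lemma dv_conj (L : E ≃ₗᵢ[ℝ] F) {ψ : E → E} (hψ : ContDiff ℝ 1 ψ) (x : F) :
    dv (fun x => L (ψ (L.symm x))) x = dv ψ (L.symm x) := by
  have h1 : HasFDerivAt (fun x => L (ψ (L.symm x)))
      ((L.toContinuousLinearEquiv : E →L[ℝ] F).comp ((fderiv ℝ ψ (L.symm x)).comp
        (L.symm.toContinuousLinearEquiv : F →L[ℝ] E))) x := by
    have h2 : HasFDerivAt ψ (fderiv ℝ ψ (L.symm x)) (L.symm x) :=
      (hψ.differentiable one_ne_zero _).hasFDerivAt
    have h3 : HasFDerivAt (fun x => L.symm x) (L.symm.toContinuousLinearEquiv : F →L[ℝ] E) x :=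
      (L.symm.toContinuousLinearEquiv : F →L[ℝ] E).hasFDerivAt
    have h4 : HasFDerivAt (fun x => L x) (L.toContinuousLinearEquiv : E →L[ℝ] F)
      (ψ (L.symm x)) := (L.toContinuousLinearEquiv : E →L[ℝ] F).hasFDerivAt
    exact h4.comp x (h2.comp x h3)
  unfold dv
  rw [h1.fderiv]
  set D := (fderiv ℝ ψ (L.symm x)).toLinearMap with hD
  have h5 : ((L.toContinuousLinearEquiv : E →L[ℝ] F).comp ((fderiv ℝ ψ (L.symm x)).comp
        (L.symm.toContinuousLinearEquiv : F →L[ℝ] E))).toLinearMap =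
      L.toLinearEquiv.conj D := by
    ext y
    rfl
  rw [h5, LinearMap.trace_conj']

omit [FiniteDimensional ℝ E] [MeasurableSpace E] [BorelSpace E] [FiniteDimensional ℝ F]
  [MeasurableSpace F] [BorelSpace F] in
lemma tst_conj (L : E ≃ₗᵢ[ℝ] F) {Ω : Set E} {ψ : E → E} (h : Tst Ω ψ) :
    Tst (L.symm ⁻¹' Ω) (fun x => L (ψ (L.symm x))) := by
  refine ⟨?_, ?_, ?_, ?_⟩
  · exact L.contDiff.comp (h.c1.comp L.symm.contDiff)
  · have h1 : HasCompactSupport (fun x => ψ (L.symm x)) :=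
      h.cs.comp_homeomorph L.symm.toHomeomorph
    exact h1.comp_left (g := L) (map_zero L)
  · intro x hx
    have h1 : tsupport (fun x => L (ψ (L.symm x))) ⊆ L.symm ⁻¹' (tsupport ψ) := by
      apply closure_minimal
      · intro y hy
        have : ψ (L.symm y) ≠ 0 := by
          intro h0
          apply hy
          simp [h0]
        exact subset_tsupport _ this
      · exact (isClosed_tsupport ψ).preimage L.symm.continuous
    exact h.sub (h1 hx)
  · intro x
    rw [L.norm_map]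
    exact h.le _

lemma int_conj (L : E ≃ₗᵢ[ℝ] F) {A : Set E} {ψ : E → E} (hψ : ContDiff ℝ 1 ψ) :
    ∫ x in L.symm ⁻¹' A, dv (fun x => L (ψ (L.symm x))) x = ∫ x in A, dv ψ x := by
  simp_rw [dv_conj L hψ]
  exact L.symm.measurePreserving.setIntegral_preimage_emb
    L.symm.toHomeomorph.measurableEmbedding (dv ψ) A

/-- The statement in an arbitrary Euclidean space. -/
theorem xfer (c : ℝ) (hFH : FH c) (Ω A : Set E) (hΩ : IsOpen Ω) (hne : Ω.Nonempty)
    (hc : Convex ℝ Ω) (hb : Bornology.IsBounded Ω) (hs : ∀ x ∈ Ω, -x ∈ Ω)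
    (hA : MeasurableSet A) (hAΩ : A ⊆ Ω) (hAv : volume A = volume Ω / 2)
    (hmin : ∀ B : Set E, MeasurableSet B → B ⊆ Ω → volume B = volume A → ∀ φ : E → E, Tst Ω φ →
      ∀ ε : ℝ, 0 < ε → ∃ ψ : E → E, Tst Ω ψ ∧ ∫ x in A, dv φ x ≤ (∫ x in B, dv ψ x) + ε) :
    ∃ Γ : ConvexCone ℝ E, volume ((Ω ∩ (Γ : Set E)) \ A) = 0 ∧
      volume ((Ω ∩ {x | -x ∈ Γ}) ∩ A) = 0 ∧
      ENNReal.ofReal c * volume Ω ≤ volume (Ω ∩ (Γ : Set E)) := by
  set n := Module.finrank ℝ E with hn
  let L : E ≃ₗᵢ[ℝ] EuclideanSpace ℝ (Fin n) := (stdOrthonormalBasis ℝ E).repr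
  have hL : MeasurePreserving L := L.measurePreserving
  have hLs : MeasurePreserving L.symm := L.symm.measurePreserving
  have hLe : MeasurableEmbedding L := L.toHomeomorph.measurableEmbedding
  have hLse : MeasurableEmbedding L.symm := L.symm.toHomeomorph.measurableEmbedding
  have hpre : ∀ S : Set E, L ⁻¹' (L.symm ⁻¹' S) = S := by
    intro S; ext x; simp
  have hpre' : ∀ S : Set (EuclideanSpace ℝ (Fin n)), L.symm ⁻¹' (L ⁻¹' S) = S := by
    intro S; ext x; simp
  have hvol : ∀ S : Set E, volume (L.symm ⁻¹' S) = volume S := fun S =>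
    hLs.measure_preimage_emb hLse S
  have hvol' : ∀ S : Set (EuclideanSpace ℝ (Fin n)), volume (L ⁻¹' S) = volume S := fun S =>
    hL.measure_preimage_emb hLe S
  obtain ⟨Γ', h1, h2, h3⟩ := hFH n (L.symm ⁻¹' Ω) (L.symm ⁻¹' A)
    (hΩ.preimage L.symm.continuous)
    (by
      obtain ⟨x, hx⟩ := hne
      exact ⟨L x, by simpa using hx⟩)
    (hc.linear_preimage L.symm.toLinearEquiv.toLinearMap)
    (by
      have : L.symm ⁻¹' Ω = L '' Ω := by
        ext x
        constructor
        · intro hx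
          exact ⟨L.symm x, hx, by simp⟩
        · rintro ⟨y, hy, rfl⟩
          simpa using hy
      rw [this]
      exact L.lipschitz.isBounded_image hb)
    (by
      intro x hx
      change L.symm (-x) ∈ Ω
      rw [map_neg]
      exact hs _ hx)
    (L.symm.continuous.measurable hA)
    (preimage_mono hAΩ)
    (by rw [hvol, hvol, hAv])
    (by
      intro B' hB' hB'Ω hB'v φ' hφ1 hφ2 hφ3 hφ4 ε hε
      have hT' : Tst (L.symm ⁻¹' Ω) φ' := ⟨hφ1, hφ2, hφ3, hφ4⟩
      have hT : Tst Ω (fun x => L.symm (φ' (L x))) := by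
        have := tst_conj L.symm hT'
        rw [LinearIsometryEquiv.symm_symm, hpre] at this
        exact this
      obtain ⟨ψ, hψT, hψ⟩ := hmin (L ⁻¹' B') (L.continuous.measurable hB')
        (by
          intro x hx
          have := hB'Ω hx
          simpa using this)
        (by rw [hvol', hB'v, hvol]) _ hT ε hε
      have hψT' := tst_conj L hψT
      refine ⟨fun x => L (ψ (L.symm x)), hψT'.c1, hψT'.cs, hψT'.sub, hψT'.le, ?_⟩
      have e1 : ∫ x in L.symm ⁻¹' A, dv φ' x = ∫ x in A, dv (fun x => L.symm (φ' (L x))) x := by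
        have h := int_conj (A := L.symm ⁻¹' A) L.symm hφ1
        rw [LinearIsometryEquiv.symm_symm, hpre] at h
        exact h.symm
      have e2 : ∫ x in B', dv (fun x => L (ψ (L.symm x))) x = ∫ x in L ⁻¹' B', dv ψ x := by
        have h := int_conj (A := L ⁻¹' B') L hψT.c1
        rw [hpre'] at h
        exact h
      change ∫ x in L.symm ⁻¹' A, dv φ' x ≤ (∫ x in B', dv (fun x => L (ψ (L.symm x))) x) + ε
      rw [e1, e2]
      exact hψ)
  refine ⟨Γ'.comap L.toLinearEquiv.toLinearMap, ?_, ?_, ?_⟩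
  · rw [← h1, ← hvol]
    congr 1
    ext x
    simp
  · rw [← h2, ← hvol]
    congr 1
    ext x
    simp
  · rw [hvol] at h3
    refine h3.trans (le_of_eq ?_)
    rw [← hvol]
    congr 1
    ext x
    simp

end Pool.Agent.Q94.CN
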