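import Pool.Agent.TH703.Cone.Exist
import Pool.Agent.TH703.Cone.Trans
import Pool.Agent.Q94.CN.T6
import Pool.Agent.Q94.CN.Xfer
import Pool.Agent.Q94.CN.Num

set_option autoImplicit false

/-! # Assembly: no dimension-free constant -/

namespace Pool.Agent.Q94.CN

open MeasureTheory Set Metric Pool.Agent.TH703.Cone
open scoped ENNReal InnerProductSpace Pointwise

variable {b : ℕ}

lemma ple_nonneg {E : Type*} [NormedAddCommGroup E] [InnerProductSpace ℝ E]
    [FiniteDimensional ℝ E] [MeasurableSpace E] [BorelSpace E] {Ω A : Set E} {P : ℝ}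
    (h : PLE Ω A P) : 0 ≤ P := by
  have ht : Tst Ω (fun _ : E => (0 : E)) := by
    refine ⟨contDiff_const, HasCompactSupport.zero, ?_, fun x => by simp⟩
    have : tsupport (fun _ : E => (0 : E)) = ∅ := by
      rw [tsupport_eq_empty_iff]; rfl
    rw [this]
    exact empty_subset _
  have h2 := h _ ht
  have h3 : ∀ x : E, dv (fun _ : E => (0 : E)) x = 0 := by
    intro x
    unfold dv
    simp
  simp only [h3, integral_zero] at h2
  exact h2

/-- mass of one colour over the wedge where the other one is fat -/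
lemma wedge_mass (T5 : S_T5) {ε P η : ℝ} {A : Set (W b)} (hb : 1 ≤ b) (hε : 0 < ε)
    (hA : MeasurableSet A) (hAO : A ⊆ Om b ε) (hP : 0 ≤ P) (hPLE : PLE (Om b ε) A P)
    (hη : 0 < η) (D : Set ℂ) (hD : MeasurableSet D) (S S' : Set (W b))
    (hS : MeasurableSet S) (hS' : MeasurableSet S')
    (hSS : (S = A ∧ S' = Om b ε \ A) ∨ (S = Om b ε \ A ∧ S' = A))
    (hfat : ∀ᵐ x : ℂ, x ∈ D → ENNReal.ofReal (η * vb b ε) ≤ volume (fib S' x)) :
    volume.real {z | z ∈ S ∧ z.fst ∈ D} ≤ 2 ^ (b + 1) * ε * P / η := by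
  have hv := vb_pos (b := b) hε
  have hDm : MeasurableSet {z : W b | z.fst ∈ D} := by
    have : Continuous fun z : W b => z.fst := by fun_prop
    exact this.measurable hD
  have hm : MeasurableSet {z | z ∈ S ∧ z.fst ∈ D} := hS.inter hDm
  have h1 : volume {z | z ∈ S ∧ z.fst ∈ D} = ∫⁻ x in D, volume (fib S x) := by
    rw [vol_fib hm, ← lintegral_indicator hD]
    apply lintegral_congr
    intro x
    by_cases hx : x ∈ D
    · rw [indicator_of_mem hx]
      congr 1
      ext y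
      change (_ ∧ x ∈ D) ↔ _
      simp only [hx, and_true]
      rfl
    · rw [indicator_of_notMem hx]
      have : fib {z | z ∈ S ∧ z.fst ∈ D} x = ∅ := by
        ext y
        change (_ ∧ x ∈ D) ↔ _
        simp [hx]
      rw [this, measure_empty]
  have h2 : ENNReal.ofReal (η * vb b ε) * ∫⁻ x in D, volume (fib S x) ≤
      ENNReal.ofReal (2 ^ (b + 1) * ε * vb b ε * P) := by
    rw [← lintegral_const_mul' _ _ ENNReal.ofReal_ne_top]
    calc ∫⁻ x in D, ENNReal.ofReal (η * vb b ε) * volume (fib S x)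
        ≤ ∫⁻ x in D, volume (fib S' x) * volume (fib S x) := by
          apply lintegral_mono_ae
          rw [ae_restrict_iff' hD]
          filter_upwards [hfat] with x hx hxD
          gcongr
          exact hx hxD
      _ ≤ ∫⁻ x, volume (fib S' x) * volume (fib S x) := setLIntegral_le_lintegral _ _
      _ ≤ _ := by
          rcases hSS with ⟨h, h'⟩ | ⟨h, h'⟩
          · rw [h, h']
            simp_rw [mul_comm (volume (fib (Om b ε \ A) _))]
            exact T5 b ε P A hb hε hA hAO hP hPLE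
          · rw [h, h']
            exact T5 b ε P A hb hε hA hAO hP hPLE
  rw [← h1] at h2
  have h3 : volume {z | z ∈ S ∧ z.fst ∈ D} ≠ ⊤ := by
    refine ((measure_mono ?_).trans_lt (om_bdd (b := b) hε).measure_lt_top).ne
    intro z hz
    rcases hSS with ⟨h, -⟩ | ⟨h, -⟩
    · exact hAO (h ▸ hz.1)
    · have : z ∈ Om b ε \ A := h ▸ hz.1
      exact this.1
  have h4 := ENNReal.toReal_mono ENNReal.ofReal_ne_top h2
  rw [ENNReal.toReal_mul, ENNReal.toReal_ofReal (by positivity),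
    ENNReal.toReal_ofReal (by positivity)] at h4
  change η * vb b ε * volume.real {z | z ∈ S ∧ z.fst ∈ D} ≤ _ at h4
  rw [le_div_iff₀ hη]
  have h5 : vb b ε * (volume.real {z | z ∈ S ∧ z.fst ∈ D} * η) ≤
      vb b ε * (2 ^ (b + 1) * ε * P) := by
    linarith
  exact le_of_mul_le_mul_left h5 hv

/-- almost every fibre of a null set is null -/
lemma fib_null {S : Set (W b)} (hS : MeasurableSet S) (h0 : volume S = 0) :
    ∀ᵐ x : ℂ, volume (fib S x) = 0 := by
  rw [vol_fib hS] at h0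
  have hm : Measurable fun x : ℂ => volume (fib S x) := by
    have h3 : MeasurableSet ((WithLp.toLp 2 : ℂ × B b → W b) ⁻¹' S) :=
      (WithLp.prod_continuous_toLp 2 ℂ (B b)).measurable hS
    exact measurable_measure_prodMk_left h3
  have := (lintegral_eq_zero_iff hm).1 h0
  exact this

lemma wp_meas (u : ℂ) (σ r₀ R₁ : ℝ) : MeasurableSet (Wp u σ r₀ R₁) := by
  unfold Wp
  have h1 : Measurable fun x : ℂ => ‖x‖ := measurable_norm
  have h2 : Measurable fun x : ℂ => (x * u).re := by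
    have : Continuous fun x : ℂ => (x * u).re := by fun_prop
    exact this.measurable
  have h3 : Measurable fun x : ℂ => |(x * u).im| := by
    have : Continuous fun x : ℂ => |(x * u).im| := by fun_prop
    exact this.measurable
  exact (measurableSet_le measurable_const h1).inter ((measurableSet_le h1 measurable_const).inter
    ((measurableSet_lt measurable_const h2).inter (measurableSet_le h3 (h1.const_mul _))))

theorem no_const (T3 : S_T3) (T4 : S_T4) (T5 : S_T5) (c : ℝ) (hc : 0 < c) : ¬ FH c := by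
  intro hFH
  set c' := min c 1 with hc'
  have hc'0 : 0 < c' := lt_min hc one_pos
  have hc'1 : c' ≤ 1 := min_le_right _ _
  obtain ⟨b, hb⟩ := exists_nat_gt (1000 * (9 : ℝ) ^ 2 / c' ^ 3)
  have hb81 : (81000 : ℝ) ≤ b := by
    have h1 : c' ^ 3 ≤ 1 := pow_le_one₀ hc'0.le hc'1
    have h2 : (0 : ℝ) < c' ^ 3 := by positivity
    rw [div_lt_iff₀ h2] at hb
    nlinarith
  have hb1 : 1 ≤ b := by
    have : (1 : ℝ) ≤ b := by linarith
    exact_mod_cast this
  have hbp : (0 : ℝ) < b := by linarith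
  have hbp1 : (0 : ℝ) < b + 1 := by linarith
  obtain ⟨r, hr0, hr1, hr, hrP⟩ := half_radius b hb81
  set r₀ : ℝ := 0.001 / (b + 1) with hr₀
  have hr₀0 : 0 < r₀ := by positivity
  obtain ⟨σ, η, hσ, hσ2, hη, h6⟩ := t6 b c' 9 r₀ hc'0 hc'1 (by norm_num) hb hr₀0
  set ε : ℝ := 0.01 * σ * r₀ * η / (6 * 2 ^ (b + 1)) with hε
  have hε0 : 0 < ε := by positivity
  set Ω := Om b ε with hΩ
  set v := vb b ε with hv
  have hv0 : 0 < v := vb_pos hε0
  set A₀ : Set (W b) := {z | z ∈ Ω ∧ ‖z.fst‖ < r} with hA₀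
  have hA₀m : MeasurableSet A₀ := by
    have : Continuous fun z : W b => ‖z.fst‖ := by fun_prop
    exact (om_meas hε0).inter (measurableSet_lt this.measurable measurable_const)
  have hA₀v : volume A₀ = volume Ω / 2 := by
    have h1 := t7b b ε r hb1 hε0 hr0.le hr1.le
    rw [h1, hr, om_vol hb1 hε0]
    rw [ENNReal.div_eq_inv_mul, ← hv]
    have h2 : (2 : ℝ≥0∞)⁻¹ = ENNReal.ofReal (1 / 2) := by
      rw [ENNReal.ofReal_div_of_pos two_pos]
      simp
    rw [h2, ← ENNReal.ofReal_mul (by norm_num)]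
    congr 1
    ring
  set P₀ : ℝ := v * (2 * Real.pi * r * (1 - r) ^ b) with hP₀
  have hple0 : PLE Ω A₀ P₀ := T3 b ε r hb1 hε0 hr0 hr1
  have hP₀le : P₀ ≤ v * (1.975 / (b + 1)) := mul_le_mul_of_nonneg_left hrP hv0.le
  obtain ⟨A, I, hA, hAO, hAv, hAI, hImin⟩ := exist (W b) (t1 (W b)) Ω A₀ P₀ (om_open hε0)
    (om_convex hε0) om_zero (om_bdd hε0) hA₀m (fun z hz => hz.1) hple0
  have hIP : I ≤ P₀ := hImin A₀ P₀ hA₀m (fun z hz => hz.1) rfl hple0
  have hI0 : 0 ≤ I := ple_nonneg hAI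
  -- the minimizer is a minimizer in the sense of the question
  obtain ⟨Γ, hΓ1, hΓ2, hΓ3⟩ := xfer c hFH Ω A (om_open hε0) ⟨0, om_zero⟩ (om_convex hε0)
    (om_bdd hε0) (fun z hz => om_neg hz) hA hAO (hAv.trans hA₀v) (by
      intro F hF hFO hFv φ hφ ε' hε'
      by_contra hcon
      push Not at hcon
      have hQ : PLE Ω F ((∫ x in A, dv φ x) - ε') := by
        intro ψ hψ
        have := hcon ψ hψ
        linarith
      have h1 := hImin F _ hF hFO (hFv.trans hAv) hQ
      have h2 := hAI φ hφ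
      linarith)
  -- interior of the cone
  set G : Set (W b) := interior (Γ : Set (W b)) with hG
  have hGΓ : G ⊆ Γ := interior_subset
  have hGt : ∀ z ∈ G, ∀ t : ℝ, 0 < t → t • z ∈ G := by
    intro z hz t ht
    have h1 : t • G ⊆ (Γ : Set (W b)) := by
      rintro _ ⟨y, hy, rfl⟩
      exact Γ.smul_mem ht (hGΓ hy)
    have h2 : IsOpen (t • G) := isOpen_interior.smul₀ ht.ne'
    exact interior_maximal h1 h2 (smul_mem_smul_set hz)
  have hGa : ∀ z ∈ G, ∀ w ∈ G, z + w ∈ G := by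
    intro z hz w hw
    have h1 : G + G ⊆ (Γ : Set (W b)) := by
      rintro _ ⟨y, hy, x, hx, rfl⟩
      exact Γ.add_mem (hGΓ hy) (hGΓ hx)
    have h2 : IsOpen (G + G) := isOpen_interior.add_right
    exact interior_maximal h1 h2 (add_mem_add hz hw)
  have hGv : ENNReal.ofReal c' * volume Ω ≤ volume (Ω ∩ G) := by
    calc ENNReal.ofReal c' * volume Ω ≤ ENNReal.ofReal c * volume Ω := by
          gcongr
          exact min_le_left _ _
      _ ≤ volume (Ω ∩ (Γ : Set (W b))) := hΓ3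
      _ ≤ volume ((Ω ∩ G) ∪ frontier (Γ : Set (W b))) := by
          apply measure_mono
          intro z hz
          by_cases hzG : z ∈ G
          · exact Or.inl ⟨hz.1, hzG⟩
          · exact Or.inr ⟨subset_closure hz.2, hzG⟩
      _ ≤ volume (Ω ∩ G) + volume (frontier (Γ : Set (W b))) := measure_union_le _ _
      _ = volume (Ω ∩ G) := by
          rw [Γ.convex.addHaar_frontier volume, add_zero]
  obtain ⟨u, hu, hux⟩ := h6 ε G hε0 isOpen_interior hGt hGa hGv
  set R₁ : ℝ := (9 - 1) / b with hR₁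
  have hGm : MeasurableSet G := isOpen_interior.measurableSet
  -- E1
  have hE1 : volume.real {z | z ∈ Ω \ A ∧ z.fst ∈ Wp u σ r₀ R₁} ≤ 2 ^ (b + 1) * ε * I / η := by
    refine wedge_mass T5 hb1 hε0 hA hAO hI0 hAI hη _ (wp_meas _ _ _ _) (Ω \ A) A
      ((om_meas hε0).diff hA) hA (Or.inr ⟨rfl, rfl⟩) ?_
    have h0 : volume ((Ω ∩ G) \ A) = 0 := by
      refine measure_mono_null ?_ hΓ1
      intro z hz
      exact ⟨⟨hz.1.1, hGΓ hz.1.2⟩, hz.2⟩
    filter_upwards [fib_null (((om_meas hε0).inter hGm).diff hA) h0] with x hx hxW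
    refine (hux x hxW).trans ?_
    calc volume (fib (Ω ∩ G) x) ≤ volume (fib A x ∪ fib ((Ω ∩ G) \ A) x) := by
          apply measure_mono
          intro y hy
          by_cases hyA : (WithLp.toLp 2 (x, y) : W b) ∈ A
          · exact Or.inl hyA
          · exact Or.inr ⟨hy, hyA⟩
      _ ≤ volume (fib A x) + volume (fib ((Ω ∩ G) \ A) x) := measure_union_le _ _
      _ = volume (fib A x) := by rw [hx, add_zero]
  -- E2
  have hE2 : volume.real {z | z ∈ A ∧ -z.fst ∈ Wp u σ r₀ R₁} ≤ 2 ^ (b + 1) * ε * I / η := by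
    refine wedge_mass T5 hb1 hε0 hA hAO hI0 hAI hη {x | -x ∈ Wp u σ r₀ R₁}
      (measurable_neg (wp_meas _ _ _ _)) A (Ω \ A)
      hA ((om_meas hε0).diff hA) (Or.inl ⟨rfl, rfl⟩) ?_
    have hnm : MeasurableSet {z : W b | -z ∈ G} := measurable_neg hGm
    have h0 : volume ((Ω ∩ {z | -z ∈ G}) ∩ A) = 0 := by
      refine measure_mono_null ?_ hΓ2
      intro z hz
      exact ⟨⟨hz.1.1, hGΓ hz.1.2⟩, hz.2⟩
    filter_upwards [fib_null (((om_meas hε0).inter hnm).inter hA) h0] with x hx hxW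
    refine (hux (-x) hxW).trans ?_
    have h1 : fib (Ω ∩ G) (-x) = -(fib (Ω ∩ {z | -z ∈ G}) x) := by
      ext y
      rw [Set.mem_neg]
      change (WithLp.toLp 2 (-x, y) : W b) ∈ Ω ∧ (WithLp.toLp 2 (-x, y) : W b) ∈ G ↔
        (WithLp.toLp 2 (x, -y) : W b) ∈ Ω ∧ -(WithLp.toLp 2 (x, -y) : W b) ∈ G
      have h2 : -(WithLp.toLp 2 (x, -y) : W b) = WithLp.toLp 2 (-x, y) := by
        apply (WithLp.ofLp_injective 2)
        refine Prod.ext rfl ?_
        change - -y = y
        rw [neg_neg]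
      have h3 : -(WithLp.toLp 2 (-x, y) : W b) = WithLp.toLp 2 (x, -y) := by
        rw [← h2, neg_neg]
      rw [h2]
      refine and_congr_left fun _ => ⟨fun h => ?_, fun h => ?_⟩
      · rw [← h3]; exact om_neg h
      · rw [← h2]; exact om_neg h
    rw [h1, Measure.measure_neg]
    calc volume (fib (Ω ∩ {z | -z ∈ G}) x) ≤
          volume (fib (Ω \ A) x ∪ fib ((Ω ∩ {z | -z ∈ G}) ∩ A) x) := by
          apply measure_mono
          intro y hy
          by_cases hyA : (WithLp.toLp 2 (x, y) : W b) ∈ A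
          · exact Or.inr ⟨hy, hyA⟩
          · exact Or.inl ⟨hy.1, hyA⟩
      _ ≤ volume (fib (Ω \ A) x) + volume (fib ((Ω ∩ {z | -z ∈ G}) ∩ A) x) :=
          measure_union_le _ _
      _ = volume (fib (Ω \ A) x) := by rw [hx, add_zero]
  -- conclusion
  have hR1lt : R₁ < 1 := by
    rw [hR₁, div_lt_one hbp]; linarith
  have hr₀R : r₀ < R₁ := by
    rw [hr₀, hR₁, div_lt_div_iff₀ hbp1 hbp]
    nlinarith
  have h4 := T4 b ε I A u σ r₀ R₁ hb1 hε0 hA hAO hAI hu hσ hσ2 hr₀0 hr₀R hR1lt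
  have h5 := low_int b hb81
  have h7 : v * (1.997 / (b + 1)) ≤ v * (2 * ∫ ρ in r₀..R₁, (1 - ρ) ^ b) :=
    mul_le_mul_of_nonneg_left h5 hv0.le
  have h8 : 3 / (2 * σ * r₀) * (volume.real {z | z ∈ Ω \ A ∧ z.fst ∈ Wp u σ r₀ R₁} +
      volume.real {z | z ∈ A ∧ -z.fst ∈ Wp u σ r₀ R₁}) ≤ 0.01 * I := by
    calc _ ≤ 3 / (2 * σ * r₀) * (2 ^ (b + 1) * ε * I / η + 2 ^ (b + 1) * ε * I / η) := by
          gcongr
      _ = 0.005 * I := by
          rw [hε]
          field_simp
          ring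
      _ ≤ 0.01 * I := by
          apply mul_le_mul_of_nonneg_right _ hI0
          norm_num
  have h9 : v * (1.997 / (b + 1)) ≤ 1.01 * (v * (1.975 / (b + 1))) := by
    have h10 : 1.01 * I ≤ 1.01 * (v * (1.975 / (b + 1))) := by
      apply mul_le_mul_of_nonneg_left (hIP.trans hP₀le)
      norm_num
    have h11 : v * (2 * ∫ ρ in r₀..R₁, (1 - ρ) ^ b) ≤ 1.01 * I := by
      refine h4.trans ?_
      have : (1.01 : ℝ) * I = I + 0.01 * I := by ring
      rw [this]
      gcongr
    exact h7.trans (h11.trans h10)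
  have h12 : 0 < v / (b + 1) := by positivity
  have h13 : 1.997 * (v / (b + 1)) ≤ 1.99475 * (v / (b + 1)) := by
    calc 1.997 * (v / (b + 1)) = v * (1.997 / (b + 1)) := by ring
      _ ≤ 1.01 * (v * (1.975 / (b + 1))) := h9
      _ = 1.99475 * (v / (b + 1)) := by ring
  have h14 := le_of_mul_le_mul_right h13 h12
  norm_num at h14

end Pool.Agent.Q94.CN
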