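import Pool.Agent.Q94.CN.T7
import Pool.Agent.Q94.CN.Geo

set_option autoImplicit false

/-! # Strips and moments in the body `Om b 1` -/

namespace Pool.Agent.Q94.CN

open MeasureTheory Set Metric Pool.Agent.TH703.Cone
open scoped ENNReal InnerProductSpace

variable {b : ℕ}

lemma lint_abs (b : ℕ) : ∫⁻ y : ℝ in Icc (-1) 1, ENNReal.ofReal ((1 - |y|) ^ b) =
    ENNReal.ofReal (2 / (b + 1)) := by
  have hcont : Continuous fun y : ℝ => (1 - |y|) ^ b := by fun_prop
  rw [← ofReal_integral_eq_lintegral_ofReal]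
  · congr 1
    rw [integral_Icc_eq_integral_Ioc, ← intervalIntegral.integral_of_le (by norm_num)]
    rw [← intervalIntegral.integral_add_adjacent_intervals (b := 0)
      (hcont.intervalIntegrable _ _) (hcont.intervalIntegrable _ _)]
    have h1 : ∫ y in (-1 : ℝ)..0, (1 - |y|) ^ b = ∫ y in (-1 : ℝ)..0, (y + 1) ^ b := by
      apply intervalIntegral.integral_congr
      intro y hy
      rw [uIcc_of_le (by norm_num)] at hy
      simp only
      rw [abs_of_nonpos hy.2]
      congr 1
      ring
    have h2 : ∫ y in (0 : ℝ)..1, (1 - |y|) ^ b = ∫ y in (0 : ℝ)..1, (1 - y) ^ b := by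
      apply intervalIntegral.integral_congr
      intro y hy
      rw [uIcc_of_le (by norm_num)] at hy
      simp only
      rw [abs_of_nonneg hy.1]
    rw [h1, h2]
    rw [intervalIntegral.integral_comp_add_right (fun x => x ^ b) 1,
      intervalIntegral.integral_comp_sub_left (fun x => x ^ b) 1]
    rw [integral_pow, integral_pow]
    simp
    ring
  · exact (hcont.continuousOn.integrableOn_compact isCompact_Icc)
  · rw [Filter.EventuallyLE, ae_restrict_iff' measurableSet_Icc]
    filter_upwards with y hy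
    have : |y| ≤ 1 := abs_le.2 hy
    simp only [Pi.zero_apply]
    exact pow_nonneg (by linarith) _

lemma strip (hb : 1 ≤ b) (τ : ℝ) (hτ : 0 ≤ τ) :
    volume (Om b 1 ∩ {z | |z.fst.re| ≤ τ}) ≤ ENNReal.ofReal (vb b 1 * (4 * τ / (b + 1))) := by
  set S : Set ℂ := {x | |x.re| ≤ τ} with hS
  have hSm : MeasurableSet S := measurableSet_le (by fun_prop) measurable_const
  have h7 := t7a b 1 hb one_pos (S.indicator 1) (measurable_one.indicator hSm)
  have hl : ∫⁻ z in Om b 1, S.indicator 1 z.fst = volume (Om b 1 ∩ {z | |z.fst.re| ≤ τ}) := by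
    have hm : MeasurableSet {z : W b | |z.fst.re| ≤ τ} := by
      have : Continuous fun z : W b => |z.fst.re| := by fun_prop
      exact measurableSet_le this.measurable measurable_const
    have : ∀ z : W b, (S.indicator 1 z.fst : ℝ≥0∞) = ({z : W b | |z.fst.re| ≤ τ}).indicator 1 z := by
      intro z
      rfl
    simp_rw [this]
    rw [lintegral_indicator_one hm, Measure.restrict_apply hm, inter_comm]
  rw [hl] at h7
  rw [h7]
  have hvb : 0 ≤ vb b 1 := measureReal_nonneg
  rw [ENNReal.ofReal_mul hvb]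
  gcongr
  set F : ℝ → ℝ≥0∞ := (Icc (-τ) τ).indicator 1 with hF
  set H : ℝ → ℝ≥0∞ := (Icc (-1) 1).indicator (fun y => ENNReal.ofReal ((1 - |y|) ^ b)) with hH
  have hFm : Measurable F := measurable_one.indicator measurableSet_Icc
  have hHm : Measurable H := by
    apply Measurable.indicator _ measurableSet_Icc
    fun_prop
  calc ∫⁻ x in ball (0 : ℂ) 1, S.indicator 1 x * ENNReal.ofReal ((1 - ‖x‖) ^ b)
      = ∫⁻ x : ℂ, (ball (0 : ℂ) 1).indicator
          (fun x => S.indicator 1 x * ENNReal.ofReal ((1 - ‖x‖) ^ b)) x := by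
        rw [lintegral_indicator measurableSet_ball]
    _ ≤ ∫⁻ x : ℂ, F x.re * H x.im := by
        apply lintegral_mono
        intro x
        simp only
        by_cases hx : x ∈ ball (0 : ℂ) 1
        · rw [indicator_of_mem hx]
          by_cases hxs : x ∈ S
          · rw [indicator_of_mem hxs]
            have h1 : x.re ∈ Icc (-τ) τ := abs_le.1 hxs
            have h3 : |x.im| ≤ ‖x‖ := Complex.abs_im_le_norm x
            have h4 : ‖x‖ < 1 := by simpa using hx
            have h2 : x.im ∈ Icc (-1 : ℝ) 1 := abs_le.1 (by linarith)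
            rw [hF, hH, indicator_of_mem h1, indicator_of_mem h2]
            simp only [Pi.one_apply, one_mul]
            apply ENNReal.ofReal_le_ofReal
            apply pow_le_pow_left₀ (by linarith)
            linarith
          · rw [indicator_of_notMem hxs, zero_mul]
            exact zero_le
        · rw [indicator_of_notMem hx]
          exact zero_le
    _ = ∫⁻ p : ℝ × ℝ, F p.1 * H p.2 := by
        have := Complex.volume_preserving_equiv_real_prod.lintegral_comp
          (f := fun p : ℝ × ℝ => F p.1 * H p.2) (by fun_prop)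
        rw [← this]
        rfl
    _ = (∫⁻ x, F x) * ∫⁻ y, H y := by
        rw [Measure.volume_eq_prod]
        exact lintegral_prod_mul hFm.aemeasurable hHm.aemeasurable
    _ = ENNReal.ofReal (4 * τ / (b + 1)) := by
        rw [hF, hH, lintegral_indicator_one measurableSet_Icc,
          lintegral_indicator measurableSet_Icc, lint_abs, Real.volume_Icc,
          ← ENNReal.ofReal_mul (by linarith)]
        congr 1
        ring

/-- first moment estimate -/
lemma fst_mom (hb : 1 ≤ b) (τ s : ℝ) (hτ : 0 ≤ τ) (hs : |s| = 1) (Q : Set (W b))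
    (hQ : MeasurableSet Q) (hQo : Q ⊆ Om b 1) (hQs : ∀ z ∈ Q, 0 < s * z.fst.re) :
    τ * (volume.real Q - vb b 1 * (4 * τ / (b + 1))) ≤ ∫ z in Q, s * z.fst.re := by
  have hfin : volume Q ≠ ⊤ := ((measure_mono hQo).trans_lt (om_bdd one_pos).measure_lt_top).ne
  set S : Set (W b) := {z | τ < s * z.fst.re} with hS
  have hc : Continuous fun z : W b => s * z.fst.re := by fun_prop
  have hSm : MeasurableSet S := measurableSet_lt measurable_const hc.measurable
  have h1 : ∫ z in Q, S.indicator (fun _ => τ) z ≤ ∫ z in Q, s * z.fst.re := by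
    apply setIntegral_mono_on
    · exact ((integrableOn_const hfin).indicator hSm)
    · have : IntegrableOn (fun z : W b => s * z.fst.re) (closedBall 0 (1 + 1)) :=
        hc.continuousOn.integrableOn_compact (isCompact_closedBall _ _)
      exact this.mono_set (hQo.trans ((om_subset_ball one_pos).trans ball_subset_closedBall))
    · exact hQ
    · intro z hz
      by_cases hzS : z ∈ S
      · rw [indicator_of_mem hzS]
        exact le_of_lt hzS
      · rw [indicator_of_notMem hzS]
        exact (hQs z hz).le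
  have h2 : ∫ z in Q, S.indicator (fun _ => τ) z = τ * volume.real (Q ∩ S) := by
    rw [setIntegral_indicator hSm, setIntegral_const, smul_eq_mul, mul_comm]
  rw [h2] at h1
  refine le_trans ?_ h1
  apply mul_le_mul_of_nonneg_left _ hτ
  have h3 : volume.real Q ≤ volume.real (Q ∩ S) + volume.real (Q \ S) := by
    rw [measureReal_inter_add_sdiff hSm hfin]
  have h4 : volume.real (Q \ S) ≤ vb b 1 * (4 * τ / (b + 1)) := by
    have h5 : Q \ S ⊆ Om b 1 ∩ {z | |z.fst.re| ≤ τ} := by
      rintro z ⟨hz, hzS⟩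
      refine ⟨hQo hz, ?_⟩
      have h6 : s * z.fst.re ≤ τ := not_lt.1 hzS
      have h7 : |s * z.fst.re| = |z.fst.re| := by rw [abs_mul, hs, one_mul]
      rw [mem_ofPred_eq, ← h7, abs_of_pos (hQs z hz)]
      exact h6
    have h6 := (measure_mono h5).trans (strip hb τ hτ)
    rw [measureReal_def]
    apply ENNReal.toReal_le_of_le_ofReal _ h6
    have : 0 ≤ vb b 1 := measureReal_nonneg
    positivity
  linarith

/-- second moment estimate -/
lemma snd_mom (hb : 1 ≤ b) (Q : Set (W b))
    (hQ : MeasurableSet Q) (hQo : Q ⊆ Om b 1) (hV : 0 < volume.real Q) :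
    ‖∫ z in Q, z.snd‖ ^ 2 ≤ volume.real Q * (volume.real (Om b 1) / b) := by
  have hb0 : (0 : ℝ) < b := by exact_mod_cast hb
  have hfin : volume Q ≠ ⊤ := ((measure_mono hQo).trans_lt (om_bdd one_pos).measure_lt_top).ne
  set Y := ∫ z in Q, z.snd with hY
  have hint : ∀ {F : Type} [NormedAddCommGroup F] (f : W b → F), Continuous f →
      IntegrableOn f (Om b 1) := by
    intro F _ f hf
    have : IntegrableOn f (closedBall 0 (1 + 1)) :=
      hf.continuousOn.integrableOn_compact (isCompact_closedBall _ _)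
    exact this.mono_set ((om_subset_ball one_pos).trans ball_subset_closedBall)
  rcases eq_or_ne Y 0 with h0 | h0
  · rw [h0]
    simp only [norm_zero]
    have : 0 ≤ volume.real (Om b 1) := measureReal_nonneg
    rw [zero_pow (by norm_num)]
    positivity
  have hYn : 0 < ‖Y‖ := norm_pos_iff.2 h0
  set e : B b := ‖Y‖⁻¹ • Y with he
  have hen : ‖e‖ = 1 := by
    rw [he, norm_smul, norm_inv, norm_norm, inv_mul_cancel₀ hYn.ne']
  have hsndi : IntegrableOn (fun z : W b => z.snd) Q := by
    apply (hint (fun z : W b => z.snd) (by fun_prop)).mono_set hQo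
  have hY1 : ‖Y‖ = ∫ z in Q, ⟪e, z.snd⟫_ℝ := by
    rw [integral_inner hsndi e, ← hY, he, inner_smul_left, real_inner_self_eq_norm_sq]
    simp only [map_inv₀, conj_trivial]
    field_simp
  have hf2 : IntegrableOn (fun z : W b => ⟪e, z.snd⟫_ℝ ^ 2) Q :=
    (hint (fun z : W b => ⟪e, z.snd⟫_ℝ ^ 2) (by fun_prop)).mono_set hQo
  have hf1 : IntegrableOn (fun z : W b => ⟪e, z.snd⟫_ℝ) Q :=
    (hint (fun z : W b => ⟪e, z.snd⟫_ℝ) (by fun_prop)).mono_set hQo
  set V := volume.real Q with hVd
  set l := ‖Y‖ / V with hl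
  have hsq : 0 ≤ ∫ z in Q, (⟪e, z.snd⟫_ℝ - l) ^ 2 :=
    integral_nonneg fun z => sq_nonneg _
  have hexp : ∫ z in Q, (⟪e, z.snd⟫_ℝ - l) ^ 2 =
      (∫ z in Q, ⟪e, z.snd⟫_ℝ ^ 2) - 2 * l * ‖Y‖ + l ^ 2 * V := by
    have : ∀ z : W b, (⟪e, z.snd⟫_ℝ - l) ^ 2 =
        ⟪e, z.snd⟫_ℝ ^ 2 - 2 * l * ⟪e, z.snd⟫_ℝ + l ^ 2 := by
      intro z; ring
    simp_rw [this]
    have hA : IntegrableOn (fun z : W b => ⟪e, z.snd⟫_ℝ ^ 2 - 2 * l * ⟪e, z.snd⟫_ℝ) Q :=
      hf2.sub (hf1.const_mul _)
    have hC : IntegrableOn (fun _ : W b => l ^ 2) Q := integrableOn_const hfin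
    rw [integral_add hA hC, integral_sub hf2 (hf1.const_mul _), integral_const_mul, ← hY1,
      setIntegral_const, smul_eq_mul]
    ring
  have hmono : ∫ z in Q, ⟪e, z.snd⟫_ℝ ^ 2 ≤ ∫ z in Om b 1, ⟪e, z.snd⟫_ℝ ^ 2 := by
    apply setIntegral_mono_set (hint (fun z : W b => ⟪e, z.snd⟫_ℝ ^ 2) (by fun_prop))
    · filter_upwards with z
      exact sq_nonneg _
    · exact LE.le.eventuallyLE hQo
  have hm := sq_mom hb e hen
  have hfinal : ‖Y‖ ^ 2 / V ≤ volume.real (Om b 1) / b := by
    have : 2 * l * ‖Y‖ - l ^ 2 * V = ‖Y‖ ^ 2 / V := by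
      rw [hl]
      field_simp
      ring
    linarith
  rw [div_le_iff₀ hV] at hfinal
  linarith

end Pool.Agent.Q94.CN
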