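import Pool.Agent.Q94.CN.T4D

/-!
# T4: lower bound by the rotational field (helper285 for helper94)
-/

set_option autoImplicit false

namespace Pool.Agent.Q94.CN.T4L

open MeasureTheory Set Metric Filter Topology Pool.Agent.TH703.Cone
open scoped ENNReal InnerProductSpace

variable {b : ℕ} {ε r₀ R₁ n σ P : ℝ} {u : ℂ} {A : Set (W b)}

lemma Hd_bound (hu : ‖u‖ = 1) (hσ : 0 < σ) (hr : 0 < r₀) {x : ℂ} (hx : r₀ ≤ ‖x‖) :
    |Hd u σ x| ≤ 3 / (2 * σ * r₀) := by
  have hx0 : 0 < ‖x‖ := hr.trans_le hx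
  unfold Hd
  rw [abs_div, abs_mul, abs_div, abs_of_nonneg (s'_nonneg _), abs_norm,
    abs_of_pos (mul_pos hσ hx0)]
  have h1 := s'_le ((x * u).im / (σ * ‖x‖))
  have h2 : |(x * u).re| ≤ ‖x‖ := by
    have := Complex.abs_re_le_norm (x * u)
    rwa [norm_mul, hu, mul_one] at this
  have h3 : |(x * u).re| / (σ * ‖x‖) ≤ 1 / σ := by
    rw [div_le_div_iff₀ (mul_pos hσ hx0) hσ]
    nlinarith
  calc s' ((x * u).im / (σ * ‖x‖)) * (|(x * u).re| / (σ * ‖x‖)) / ‖x‖ ≤
        3 / 2 * (1 / σ) / r₀ := by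
        refine div_le_div₀ (by positivity) (mul_le_mul h1 h3 (by positivity) (by norm_num)) hr hx
    _ = 3 / (2 * σ * r₀) := by field_simp

lemma Hd_supp (hσ : 0 < σ) {x : ℂ} (hx : 0 < ‖x‖)
    (h : Hd u σ x ≠ 0) : |(x * u).im| ≤ σ * ‖x‖ ∧ (x * u).re ≠ 0 := by
  have hp : 0 < σ * ‖x‖ := mul_pos hσ hx
  constructor
  · by_contra hc
    push Not at hc
    apply h
    unfold Hd
    rw [s'_zero, zero_mul, zero_div]
    rw [abs_div, abs_of_pos hp, le_div_iff₀ hp]
    linarith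
  · intro h0
    apply h
    unfold Hd
    rw [h0, zero_div, mul_zero, zero_div]

/-- first exceptional set -/
def N1 (A : Set (W b)) (ε : ℝ) (u : ℂ) (σ r₀ R₁ : ℝ) : Set (W b) :=
  {z | z ∈ Om b ε \ A ∧ z.fst ∈ Wp u σ r₀ R₁}

/-- second exceptional set -/
def N2 (A : Set (W b)) (u : ℂ) (σ r₀ R₁ : ℝ) : Set (W b) :=
  {z | z ∈ A ∧ -z.fst ∈ Wp u σ r₀ R₁}

/-- the divergence on the half space -/
noncomputable def gn (ε r₀ R₁ n : ℝ) (u : ℂ) (σ : ℝ) (z : W b) : ℝ :=
  if 0 < (z.fst * u).re then chi ε r₀ R₁ n z * Hd u σ z.fst else 0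

lemma meas_Wp : MeasurableSet (Wp u σ r₀ R₁) := by
  have h1 : Measurable (fun x : ℂ => |(x * u).im|) :=
    (Complex.measurable_im.comp (measurable_id.mul_const u)).abs
  have h2 : Measurable (fun x : ℂ => (x * u).re) :=
    Complex.measurable_re.comp (measurable_id.mul_const u)
  have h3 : Measurable (fun x : ℂ => ‖x‖) := measurable_norm
  exact (measurableSet_le measurable_const h3).inter ((measurableSet_le h3 measurable_const).inter
    ((measurableSet_lt measurable_const h2).inter (measurableSet_le h1 (h3.const_mul σ))))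

lemma Om_lt (hε : 0 < ε) : volume (Om b ε) < ⊤ :=
  (measure_mono (Om_bdd hε)).trans_lt measure_closedBall_lt_top

lemma pointwise (hA : A ⊆ Om b ε) (hu : ‖u‖ = 1) (hσ : 0 < σ) (hr : 0 < r₀)
    (hn : 0 < n) (z : W b) :
    (Om b ε).indicator (gn ε r₀ R₁ n u σ) z -
      (3 / (2 * σ * r₀) * (N1 A ε u σ r₀ R₁).indicator 1 z +
        3 / (2 * σ * r₀) * (N2 A u σ r₀ R₁).indicator 1 z) ≤
      A.indicator (fun z => chi ε r₀ R₁ n z * Hd u σ z.fst) z := by
  have hC : 0 < 3 / (2 * σ * r₀) := by positivity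
  set C := 3 / (2 * σ * r₀) with hCdef
  have i1 : 0 ≤ C * (N1 A ε u σ r₀ R₁).indicator 1 z :=
    mul_nonneg hC.le (indicator_nonneg (fun _ _ => zero_le_one) z)
  have i2 : 0 ≤ C * (N2 A u σ r₀ R₁).indicator 1 z :=
    mul_nonneg hC.le (indicator_nonneg (fun _ _ => zero_le_one) z)
  -- facts when the product does not vanish
  have key : chi ε r₀ R₁ n z * Hd u σ z.fst ≠ 0 → r₀ < ‖z.fst‖ ∧ ‖z.fst‖ < R₁ ∧
      |(z.fst * u).im| ≤ σ * ‖z.fst‖ ∧ (z.fst * u).re ≠ 0 ∧
      |chi ε r₀ R₁ n z * Hd u σ z.fst| ≤ C := by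
    intro h
    obtain ⟨h1, h2⟩ := mul_ne_zero_iff.1 h
    obtain ⟨h3, h4, -⟩ := chi_supp hn h1
    obtain ⟨h5, h6⟩ := Hd_supp hσ (hr.trans h3) h2
    refine ⟨h3, h4, h5, h6, ?_⟩
    rw [abs_mul, abs_of_nonneg (chi_nonneg z)]
    calc chi ε r₀ R₁ n z * |Hd u σ z.fst| ≤ 1 * C :=
          mul_le_mul (chi_le_one z) (Hd_bound hu hσ hr h3.le) (abs_nonneg _) zero_le_one
      _ = C := one_mul C
  by_cases hzA : z ∈ A
  · rw [indicator_of_mem (hA hzA), indicator_of_mem hzA]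
    unfold gn
    split_ifs with hre
    · linarith
    · by_cases h0 : chi ε r₀ R₁ n z * Hd u σ z.fst = 0
      · rw [h0]; linarith
      · obtain ⟨k1, k2, k3, k4, k5⟩ := key h0
        have hN : z ∈ N2 A u σ r₀ R₁ := by
          refine ⟨hzA, ?_, ?_, ?_, ?_⟩
          · rw [norm_neg]; exact k1.le
          · rw [norm_neg]; exact k2.le
          · rw [neg_mul, Complex.neg_re]
            push Not at hre
            rcases lt_or_eq_of_le hre with h | h
            · linarith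
            · exact absurd h k4
          · rw [neg_mul, Complex.neg_im, abs_neg, norm_neg]; exact k3
        rw [indicator_of_mem hN]
        have := neg_abs_le (chi ε r₀ R₁ n z * Hd u σ z.fst)
        simp only [Pi.one_apply, mul_one]
        linarith
  · rw [indicator_of_notMem hzA]
    by_cases hzO : z ∈ Om b ε
    · rw [indicator_of_mem hzO]
      unfold gn
      split_ifs with hre
      · by_cases h0 : chi ε r₀ R₁ n z * Hd u σ z.fst = 0
        · rw [h0]; linarith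
        · obtain ⟨k1, k2, k3, k4, k5⟩ := key h0
          have hN : z ∈ N1 A ε u σ r₀ R₁ := ⟨⟨hzO, hzA⟩, k1.le, k2.le, hre, k3⟩
          rw [indicator_of_mem hN]
          have := le_abs_self (chi ε r₀ R₁ n z * Hd u σ z.fst)
          simp only [Pi.one_apply, mul_one]
          linarith
      · linarith
    · rw [indicator_of_notMem hzO]
      linarith

lemma meas_re : MeasurableSet {z : W b | 0 < (z.fst * u).re} := by
  have h : Continuous (fun z : W b => (z.fst * u).re) :=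
    Complex.continuous_re.comp (cont_fst.mul continuous_const)
  exact (isOpen_lt continuous_const h).measurableSet

lemma gn_eq : (gn (b := b) ε r₀ R₁ n u σ) = {z : W b | 0 < (z.fst * u).re}.indicator
    (fun z => chi ε r₀ R₁ n z * Hd u σ z.fst) := by
  classical
  funext z
  unfold gn
  by_cases h : 0 < (z.fst * u).re
  · rw [if_pos h, indicator_of_mem (by exact h)]
  · rw [if_neg h, indicator_of_notMem (by exact h)]

lemma int_fn (hε : 0 < ε) (hr : 0 < r₀) (hR : R₁ < 1) (hn : 0 < n) (hσ : 0 < σ) :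
    Integrable (fun z : W b => chi ε r₀ R₁ n z * Hd u σ z.fst) := by
  have t := tst_fld (b := b) (u := u) hε hr hR hn hσ
  have h := Div.integrable_dv t.c1 t.cs
  have e : dv (fld (b := b) ε r₀ R₁ n u σ) = fun z => chi ε r₀ R₁ n z * Hd u σ z.fst :=
    funext fun z => dv_fld hr hn hσ z
  rwa [e] at h

lemma meas_N1 (hA : MeasurableSet A) : MeasurableSet (N1 A ε u σ r₀ R₁) :=
  (isOpen_Om.measurableSet.diff hA).inter (cont_fst.measurable meas_Wp)

lemma meas_N2 (hA : MeasurableSet A) : MeasurableSet (N2 A u σ r₀ R₁) :=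
  hA.inter (cont_fst.neg.measurable meas_Wp)

lemma ineq_n (hA : A ⊆ Om b ε) (hAm : MeasurableSet A) (hP : PLE (Om b ε) A P) (hu : ‖u‖ = 1)
    (hε : 0 < ε) (hσ : 0 < σ) (hr : 0 < r₀) (hR : R₁ < 1) (hn : 0 < n) :
    ∫ z in Om b ε, gn ε r₀ R₁ n u σ z ≤ P + 3 / (2 * σ * r₀) *
      (volume.real (N1 A ε u σ r₀ R₁) + volume.real (N2 A u σ r₀ R₁)) := by
  have h1 := hP _ (tst_fld (b := b) (u := u) hε hr hR hn hσ)
  have h2 : ∫ x in A, dv (fld (b := b) ε r₀ R₁ n u σ) x =
      ∫ x in A, chi ε r₀ R₁ n x * Hd u σ x.fst :=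
    integral_congr_ae (Eventually.of_forall fun z => dv_fld hr hn hσ z)
  rw [h2, ← integral_indicator hAm] at h1
  have hi := int_fn (b := b) (u := u) hε hr hR hn hσ
  have hg : Integrable (gn (b := b) ε r₀ R₁ n u σ) := by
    rw [gn_eq]
    exact hi.indicator meas_re
  have n1 : volume (N1 A ε u σ r₀ R₁) ≠ ⊤ :=
    ((measure_mono fun z hz => hz.1.1).trans_lt (Om_lt hε)).ne
  have n2 : volume (N2 A u σ r₀ R₁) ≠ ⊤ :=
    ((measure_mono fun z hz => hA hz.1).trans_lt (Om_lt hε)).ne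
  have i1 : Integrable ((N1 A ε u σ r₀ R₁).indicator (1 : W b → ℝ)) :=
    (integrable_indicator_iff (meas_N1 hAm)).2 (integrableOn_const n1)
  have i2 : Integrable ((N2 A u σ r₀ R₁).indicator (1 : W b → ℝ)) :=
    (integrable_indicator_iff (meas_N2 hAm)).2 (integrableOn_const n2)
  have hadd : Integrable (fun z : W b => 3 / (2 * σ * r₀) * (N1 A ε u σ r₀ R₁).indicator 1 z +
      3 / (2 * σ * r₀) * (N2 A u σ r₀ R₁).indicator 1 z) :=
    (i1.const_mul (3 / (2 * σ * r₀))).add (i2.const_mul (3 / (2 * σ * r₀)))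
  have hsub : Integrable (fun z : W b => (Om b ε).indicator (gn ε r₀ R₁ n u σ) z -
      (3 / (2 * σ * r₀) * (N1 A ε u σ r₀ R₁).indicator 1 z +
        3 / (2 * σ * r₀) * (N2 A u σ r₀ R₁).indicator 1 z)) :=
    (hg.indicator isOpen_Om.measurableSet).sub hadd
  have h3 : ∫ z : W b, ((Om b ε).indicator (gn ε r₀ R₁ n u σ) z -
      (3 / (2 * σ * r₀) * (N1 A ε u σ r₀ R₁).indicator 1 z +
        3 / (2 * σ * r₀) * (N2 A u σ r₀ R₁).indicator 1 z)) ≤
      ∫ z : W b, A.indicator (fun z => chi ε r₀ R₁ n z * Hd u σ z.fst) z :=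
    integral_mono hsub (hi.indicator hAm)
      (fun z => pointwise (R₁ := R₁) hA hu hσ hr hn z)
  have h4 : ∫ z : W b, ((Om b ε).indicator (gn ε r₀ R₁ n u σ) z -
      (3 / (2 * σ * r₀) * (N1 A ε u σ r₀ R₁).indicator 1 z +
        3 / (2 * σ * r₀) * (N2 A u σ r₀ R₁).indicator 1 z)) =
      (∫ z in Om b ε, gn ε r₀ R₁ n u σ z) - 3 / (2 * σ * r₀) *
        (volume.real (N1 A ε u σ r₀ R₁) + volume.real (N2 A u σ r₀ R₁)) := by
    rw [integral_sub (hg.indicator isOpen_Om.measurableSet) hadd,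
      integral_add (i1.const_mul (3 / (2 * σ * r₀))) (i2.const_mul (3 / (2 * σ * r₀))),
      integral_const_mul, integral_const_mul, integral_indicator_one (meas_N1 hAm),
      integral_indicator_one (meas_N2 hAm), integral_indicator isOpen_Om.measurableSet]
    rw [mul_add]
  rw [h4] at h3
  linarith

lemma chi_tendsto {z : W b} (hz : z ∈ Om b ε) (hε : 0 < ε) (h1 : r₀ < ‖z.fst‖)
    (h2 : ‖z.fst‖ < R₁) :
    Tendsto (fun n : ℕ => chi ε r₀ R₁ ((n : ℝ) + 1) z) atTop (𝓝 1) := by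
  have key : ∀ t : ℝ, 0 < t → ∀ᶠ n : ℕ in atTop,
      Real.smoothTransition (((n : ℝ) + 1) * t - 1) = 1 := by
    intro t ht
    obtain ⟨N, hN⟩ := exists_nat_gt (2 / t)
    filter_upwards [eventually_ge_atTop N] with n hn
    apply Real.smoothTransition.one_of_one_le
    have h3 : (N : ℝ) ≤ n := by exact_mod_cast hn
    rw [div_lt_iff₀ ht] at hN
    nlinarith
  have h3 : 0 < ε ^ 2 * (1 - ‖z.fst‖) ^ 2 - ‖z.snd‖ ^ 2 := by
    have h0 : ‖z.fst‖ + ‖z.snd‖ / ε < 1 := hz
    have h4 : ‖z.snd‖ < ε * (1 - ‖z.fst‖) := by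
      have : ‖z.snd‖ / ε < 1 - ‖z.fst‖ := by linarith
      rw [div_lt_iff₀ hε] at this
      linarith
    have h5 := norm_nonneg z.snd
    nlinarith
  refine tendsto_const_nhds.congr' ?_
  filter_upwards [key _ (sub_pos.2 h1), key _ (sub_pos.2 h2), key _ h3] with n a1 a2 a3
  unfold chi
  rw [a1, a2, a3]
  norm_num

lemma gn_tendsto {z : W b} (hz : z ∈ Om b ε) (hε : 0 < ε) :
    Tendsto (fun n : ℕ => gn ε r₀ R₁ ((n : ℝ) + 1) u σ z) atTop (𝓝 (Gf u σ r₀ R₁ z.fst)) := by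
  unfold gn Gf
  by_cases hre : 0 < (z.fst * u).re
  · by_cases h : r₀ < ‖z.fst‖ ∧ ‖z.fst‖ < R₁
    · rw [if_pos ⟨h.1, h.2, hre⟩]
      have := (chi_tendsto hz hε h.1 h.2).mul_const (Hd u σ z.fst)
      rw [one_mul] at this
      simpa only [if_pos hre] using this
    · rw [if_neg (fun h' => h ⟨h'.1, h'.2.1⟩)]
      refine tendsto_const_nhds.congr fun n => ?_
      rw [if_pos hre]
      have : chi ε r₀ R₁ ((n : ℝ) + 1) z = 0 := by
        by_contra hc
        have := chi_supp (by positivity) hc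
        exact h ⟨this.1, this.2.1⟩
      rw [this, zero_mul]
  · rw [if_neg (fun h' => hre h'.2.2)]
    refine tendsto_const_nhds.congr fun n => ?_
    rw [if_neg hre]

lemma gn_bound (hu : ‖u‖ = 1) (hσ : 0 < σ) (hr : 0 < r₀) (hn : 0 < n) (z : W b) :
    ‖gn ε r₀ R₁ n u σ z‖ ≤ 3 / (2 * σ * r₀) := by
  have hC : 0 < 3 / (2 * σ * r₀) := by positivity
  unfold gn
  split_ifs with h
  · by_cases h0 : chi ε r₀ R₁ n z = 0
    · rw [h0, zero_mul, norm_zero]; exact hC.le
    · have h3 := (chi_supp hn h0).1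
      rw [Real.norm_eq_abs, abs_mul, abs_of_nonneg (chi_nonneg z)]
      calc chi ε r₀ R₁ n z * |Hd u σ z.fst| ≤ 1 * (3 / (2 * σ * r₀)) :=
            mul_le_mul (chi_le_one z) (Hd_bound hu hσ hr h3.le) (abs_nonneg _) zero_le_one
        _ = 3 / (2 * σ * r₀) := one_mul _
  · rw [norm_zero]; exact hC.le

end T4L

open MeasureTheory Set Metric Filter Topology Pool.Agent.TH703.Cone T4L in
/-- **T4.** -/
theorem t4 (h7 : S_T7a) : S_T4 := by
  intro b ε P A u σ r₀ R₁ hb hε hAm hA hP hu hσ hσ1 hr hrR hR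
  have h1 : Tendsto (fun n : ℕ => ∫ z in Om b ε, gn ε r₀ R₁ ((n : ℝ) + 1) u σ z) atTop
      (𝓝 (∫ z in Om b ε, Gf u σ r₀ R₁ z.fst)) := by
    refine tendsto_integral_of_dominated_convergence (fun _ => 3 / (2 * σ * r₀)) ?_ ?_ ?_ ?_
    · intro n
      have hn : (0 : ℝ) < (n : ℝ) + 1 := by positivity
      have hg : Integrable (gn (b := b) ε r₀ R₁ ((n : ℝ) + 1) u σ) := by
        rw [gn_eq]
        exact (int_fn hε hr hR hn hσ).indicator meas_re
      exact hg.aestronglyMeasurable.restrict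
    · exact integrableOn_const (Om_lt hε).ne
    · intro n
      exact Eventually.of_forall fun z => gn_bound hu hσ hr (by positivity) z
    · refine (ae_restrict_iff' isOpen_Om.measurableSet).2 (Eventually.of_forall fun z hz => ?_)
      exact gn_tendsto hz hε
  rw [body_int h7 hb hε hu hrR.le hr hR hσ (by linarith)] at h1
  refine le_of_tendsto h1 (Eventually.of_forall fun n => ?_)
  exact ineq_n hA hAm hP hu hε hσ hr hR (by positivity)

end Pool.Agent.Q94.CN
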