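import Pool.Agent.TH703.Cone.Div

/-!
# T4, part A: the profile function and the rotational field (helper285 for helper94)
-/

set_option autoImplicit false

namespace Pool.Agent.Q94.CN.T4L

open MeasureTheory Set Metric Filter Topology Pool.Agent.TH703.Cone
open scoped ENNReal InnerProductSpace

/-- derivative of the profile -/
noncomputable def s' (t : ℝ) : ℝ := 3 / 2 * max 0 (1 - t ^ 2)

/-- the profile -/
noncomputable def S (t : ℝ) : ℝ := ∫ x in (0 : ℝ)..t, s' x

lemma s'_cont : Continuous s' := by unfold s'; fun_prop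

lemma s'_nonneg (t : ℝ) : 0 ≤ s' t := by
  unfold s'
  have := le_max_left 0 (1 - t ^ 2)
  positivity

lemma s'_le (t : ℝ) : s' t ≤ 3 / 2 := by
  unfold s'
  have h : max 0 (1 - t ^ 2) ≤ 1 := max_le zero_le_one (by nlinarith [sq_nonneg t])
  linarith

lemma s'_zero {t : ℝ} (h : 1 ≤ |t|) : s' t = 0 := by
  unfold s'
  have h1 : 1 ≤ t ^ 2 := by
    rw [← sq_abs]
    nlinarith [abs_nonneg t]
  rw [max_eq_left (by linarith)]
  ring

lemma s'_int (a c : ℝ) : IntervalIntegrable s' volume a c := s'_cont.intervalIntegrable a c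

lemma S_deriv (t : ℝ) : HasDerivAt S (s' t) t :=
  intervalIntegral.integral_hasDerivAt_right (s'_int _ _)
    (s'_cont.stronglyMeasurableAtFilter _ _) s'_cont.continuousAt

lemma poly_int (a c : ℝ) : ∫ x in a..c, (3 / 2 * (1 - x ^ 2)) =
    3 / 2 * (c - c ^ 3 / 3) - 3 / 2 * (a - a ^ 3 / 3) := by
  rw [intervalIntegral.integral_eq_sub_of_hasDerivAt (f := fun x => 3 / 2 * (x - x ^ 3 / 3))]
  · intro x _
    have h : HasDerivAt (fun x : ℝ => 3 / 2 * (x - x ^ 3 / 3))
        (3 / 2 * (1 - (3 : ℕ) * x ^ (3 - 1) / 3)) x :=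
      ((hasDerivAt_id' x).sub ((hasDerivAt_pow 3 x).div_const 3)).const_mul (3 / 2 : ℝ)
    have e : (3 : ℝ) / 2 * (1 - (3 : ℕ) * x ^ (3 - 1) / 3) = 3 / 2 * (1 - x ^ 2) := by
      norm_num
    rwa [e] at h
  · exact (by fun_prop : Continuous fun x : ℝ => 3 / 2 * (1 - x ^ 2)).intervalIntegrable _ _

lemma S_one : S 1 = 1 := by
  unfold S
  have h : ∫ x in (0 : ℝ)..1, s' x = ∫ x in (0 : ℝ)..1, (3 / 2 * (1 - x ^ 2)) := by
    refine intervalIntegral.integral_congr fun x hx => ?_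
    rw [uIcc_of_le zero_le_one] at hx
    unfold s'
    rw [max_eq_right]
    nlinarith [hx.1, hx.2]
  rw [h, poly_int]
  norm_num

lemma S_neg_one : S (-1) = -1 := by
  unfold S
  have h : ∫ x in (0 : ℝ)..(-1), s' x = ∫ x in (0 : ℝ)..(-1), (3 / 2 * (1 - x ^ 2)) := by
    refine intervalIntegral.integral_congr fun x hx => ?_
    rw [uIcc_of_ge (by norm_num)] at hx
    unfold s'
    rw [max_eq_right]
    nlinarith [hx.1, hx.2]
  rw [h, poly_int]
  norm_num

lemma S_of_ge {t : ℝ} (h : 1 ≤ t) : S t = 1 := by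
  have h1 : S 1 + ∫ x in (1 : ℝ)..t, s' x = S t :=
    intervalIntegral.integral_add_adjacent_intervals (s'_int _ _) (s'_int _ _)
  have h2 : ∫ x in (1 : ℝ)..t, s' x = ∫ x in (1 : ℝ)..t, (0 : ℝ) := by
    refine intervalIntegral.integral_congr fun x hx => ?_
    rw [uIcc_of_le h] at hx
    exact s'_zero (hx.1.trans (le_abs_self x))
  rw [← h1, h2, S_one]
  simp

lemma S_of_le {t : ℝ} (h : t ≤ -1) : S t = -1 := by
  have h1 : S (-1) + ∫ x in (-1 : ℝ)..t, s' x = S t :=
    intervalIntegral.integral_add_adjacent_intervals (s'_int _ _) (s'_int _ _)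
  have h2 : ∫ x in (-1 : ℝ)..t, s' x = ∫ x in (-1 : ℝ)..t, (0 : ℝ) := by
    refine intervalIntegral.integral_congr fun x hx => ?_
    rw [uIcc_of_ge h] at hx
    refine s'_zero ?_
    have := neg_abs_le x
    have := hx.2
    rw [abs_of_nonpos (by linarith)]
    linarith
  rw [← h1, h2, S_neg_one]
  simp

lemma S_mono : Monotone S := by
  refine monotone_of_deriv_nonneg (fun t => (S_deriv t).differentiableAt) fun t => ?_
  rw [(S_deriv t).deriv]
  exact s'_nonneg t

lemma S_abs (t : ℝ) : |S t| ≤ 1 := by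
  rw [abs_le]
  constructor
  · have h1 := S_mono (min_le_left t (-1))
    rw [S_of_le (min_le_right t (-1))] at h1
    exact h1
  · have h1 := S_mono (le_max_left t 1)
    rw [S_of_ge (le_max_right t 1)] at h1
    exact h1

lemma S_contDiff : ContDiff ℝ 1 S := by
  rw [contDiff_one_iff_deriv]
  refine ⟨fun t => (S_deriv t).differentiableAt, ?_⟩
  have h : deriv S = s' := funext fun t => (S_deriv t).deriv
  rw [h]
  exact s'_cont

/-- the angular integral -/
lemma S_int {σ : ℝ} (h0 : 0 < σ) (h1 : σ ≤ 1) :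
    ∫ θ in (-(Real.pi / 2))..(Real.pi / 2), s' (Real.sin θ / σ) * (Real.cos θ / σ) = 2 := by
  rw [intervalIntegral.integral_eq_sub_of_hasDerivAt (f := fun θ => S (Real.sin θ / σ))]
  · have h2 : 1 ≤ 1 / σ := by rw [le_div_iff₀ h0]; linarith
    rw [Real.sin_neg, Real.sin_pi_div_two, S_of_ge h2, S_of_le (by rw [neg_div]; linarith)]
    norm_num
  · intro θ _
    exact (S_deriv _).comp θ ((Real.hasDerivAt_sin θ).div_const σ)
  · refine Continuous.intervalIntegrable ?_ _ _
    exact (s'_cont.comp (Real.continuous_sin.div_const σ)).mul (Real.continuous_cos.div_const σ)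

/-! ### the infinitesimal rotation -/

variable {b : ℕ}

/-- projection to the plane -/
noncomputable def Pj (b : ℕ) : W b →L[ℝ] W b :=
  (WithLp.prodContinuousLinearEquiv 2 ℝ ℂ (B b)).symm.toContinuousLinearMap.comp
    ((WithLp.fstL 2 ℝ ℂ (B b)).prod 0)

/-- infinitesimal rotation -/
noncomputable def J (b : ℕ) : W b →L[ℝ] W b :=
  (WithLp.prodContinuousLinearEquiv 2 ℝ ℂ (B b)).symm.toContinuousLinearMap.comp
    (((Complex.I • ContinuousLinearMap.id ℝ ℂ).comp (WithLp.fstL 2 ℝ ℂ (B b))).prod 0)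

lemma Pj_fst (z : W b) : (Pj b z).fst = z.fst := rfl
lemma Pj_snd (z : W b) : (Pj b z).snd = 0 := rfl
lemma J_fst (z : W b) : (J b z).fst = Complex.I * z.fst := rfl
lemma J_snd (z : W b) : (J b z).snd = 0 := rfl

lemma J_norm (z : W b) : ‖J b z‖ = ‖z.fst‖ := by
  rw [WithLp.prod_norm_eq_of_L2, J_fst, J_snd, norm_mul, Complex.norm_I, norm_zero, one_mul]
  simp

lemma J_skew (z : W b) : ⟪z, J b z⟫_ℝ = 0 := by
  have h : ⟪z, J b z⟫_ℝ = ⟪z.fst, Complex.I * z.fst⟫_ℝ + ⟪z.snd, (0 : B b)⟫_ℝ := rfl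
  rw [h, inner_zero_right, add_zero, Complex.inner]
  simp only [Complex.mul_re, Complex.conj_re, Complex.conj_im, Complex.I_re, Complex.I_im,
    Complex.mul_im]
  ring

lemma dv_J (z : W b) : dv (fun y => J b y) z = 0 := by
  rw [Div.dv_eq_sum (stdOrthonormalBasis ℝ (W b))]
  refine Finset.sum_eq_zero fun i _ => ?_
  rw [(J b).fderiv]
  exact J_skew _

/-- the rotated point -/
noncomputable def rot (z : W b) (θ : ℝ) : W b :=
  z + (Real.cos θ - 1) • Pj b z + Real.sin θ • J b z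

lemma rot_zero (z : W b) : rot z 0 = z := by
  simp [rot]

lemma rot_fst (z : W b) (θ : ℝ) :
    (rot z θ).fst = z.fst * ((Real.cos θ : ℂ) + Real.sin θ * Complex.I) := by
  have h : (rot z θ).fst = z.fst + (Real.cos θ - 1 : ℝ) • z.fst +
    (Real.sin θ : ℝ) • (Complex.I * z.fst) := rfl
  rw [h, Complex.real_smul, Complex.real_smul]
  push_cast
  ring

lemma rot_snd (z : W b) (θ : ℝ) : (rot z θ).snd = z.snd := by
  have h : (rot z θ).snd = z.snd + (Real.cos θ - 1) • (0 : B b) + Real.sin θ • (0 : B b) := rfl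
  rw [h, smul_zero, smul_zero, add_zero, add_zero]

lemma rot_norm (z : W b) (θ : ℝ) : ‖(rot z θ).fst‖ = ‖z.fst‖ := by
  rw [rot_fst, norm_mul]
  have h : ‖((Real.cos θ : ℂ) + Real.sin θ * Complex.I)‖ = 1 := by
    push_cast
    rw [← Complex.exp_mul_I, Complex.norm_exp_ofReal_mul_I]
  rw [h, mul_one]

lemma rot_deriv (z : W b) : HasDerivAt (rot z) (J b z) 0 := by
  have h1 : HasDerivAt (fun θ => (Real.cos θ - 1) • Pj b z) ((-Real.sin 0) • Pj b z) 0 :=
    ((Real.hasDerivAt_cos 0).sub_const 1).smul_const _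
  have h2 : HasDerivAt (fun θ => Real.sin θ • J b z) (Real.cos 0 • J b z) 0 :=
    (Real.hasDerivAt_sin 0).smul_const _
  have h3 := (h1.const_add z).add h2
  simp only [Real.sin_zero, neg_zero, zero_smul, Real.cos_zero, one_smul, zero_add] at h3
  exact h3

lemma rot_im (z : W b) (u : ℂ) (θ : ℝ) : ((rot z θ).fst * u).im =
    (z.fst * u).im * Real.cos θ + (z.fst * u).re * Real.sin θ := by
  rw [rot_fst, mul_right_comm]
  generalize z.fst * u = w
  simp only [Complex.mul_im, Complex.add_re, Complex.add_im, Complex.mul_re, Complex.ofReal_re,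
    Complex.ofReal_im, Complex.I_re, Complex.I_im, Complex.mul_im]
  ring

end Pool.Agent.Q94.CN.T4L
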