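import Pool.Agent.Q94.CN.T4A

/-!
# T4, part B: the test field (helper285 for helper94)
-/

set_option autoImplicit false

namespace Pool.Agent.Q94.CN.T4L

open MeasureTheory Set Metric Filter Topology Pool.Agent.TH703.Cone
open scoped ENNReal InnerProductSpace

variable {b : ℕ}

/-- cut-off -/
noncomputable def chi (ε r₀ R₁ n : ℝ) (z : W b) : ℝ :=
  Real.smoothTransition (n * (‖z.fst‖ - r₀) - 1) *
    Real.smoothTransition (n * (R₁ - ‖z.fst‖) - 1) *
    Real.smoothTransition (n * (ε ^ 2 * (1 - ‖z.fst‖) ^ 2 - ‖z.snd‖ ^ 2) - 1)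

/-- angular part -/
noncomputable def ang (u : ℂ) (σ : ℝ) (z : W b) : ℝ :=
  S ((z.fst * u).im / (σ * ‖z.fst‖)) / ‖z.fst‖

/-- the coefficient of the field -/
noncomputable def kf (ε r₀ R₁ n : ℝ) (u : ℂ) (σ : ℝ) (z : W b) : ℝ :=
  chi ε r₀ R₁ n z * ang u σ z

/-- the field -/
noncomputable def fld (ε r₀ R₁ n : ℝ) (u : ℂ) (σ : ℝ) (z : W b) : W b :=
  kf ε r₀ R₁ n u σ z • J b z

/-- the divergence without the cut-off -/
noncomputable def Hd (u : ℂ) (σ : ℝ) (x : ℂ) : ℝ :=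
  s' ((x * u).im / (σ * ‖x‖)) * ((x * u).re / (σ * ‖x‖)) / ‖x‖

variable {ε r₀ R₁ n σ : ℝ} {u : ℂ}

lemma chi_nonneg (z : W b) : 0 ≤ chi ε r₀ R₁ n z := by
  unfold chi
  have := Real.smoothTransition.nonneg (n * (‖z.fst‖ - r₀) - 1)
  have := Real.smoothTransition.nonneg (n * (R₁ - ‖z.fst‖) - 1)
  have := Real.smoothTransition.nonneg (n * (ε ^ 2 * (1 - ‖z.fst‖) ^ 2 - ‖z.snd‖ ^ 2) - 1)
  positivity

lemma chi_le_one (z : W b) : chi ε r₀ R₁ n z ≤ 1 := by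
  unfold chi
  have a1 := Real.smoothTransition.nonneg (n * (‖z.fst‖ - r₀) - 1)
  have a2 := Real.smoothTransition.nonneg (n * (R₁ - ‖z.fst‖) - 1)
  have a3 := Real.smoothTransition.nonneg (n * (ε ^ 2 * (1 - ‖z.fst‖) ^ 2 - ‖z.snd‖ ^ 2) - 1)
  have b1 := Real.smoothTransition.le_one (n * (‖z.fst‖ - r₀) - 1)
  have b2 := Real.smoothTransition.le_one (n * (R₁ - ‖z.fst‖) - 1)
  have b3 := Real.smoothTransition.le_one (n * (ε ^ 2 * (1 - ‖z.fst‖) ^ 2 - ‖z.snd‖ ^ 2) - 1)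
  exact mul_le_one₀ (mul_le_one₀ b1 a2 b2) a3 b3

/-- the closed set containing the support -/
def Kc (b : ℕ) (ε r₀ R₁ n : ℝ) : Set (W b) :=
  {z | r₀ ≤ ‖z.fst‖ ∧ ‖z.fst‖ ≤ R₁ ∧ 1 / n ≤ ε ^ 2 * (1 - ‖z.fst‖) ^ 2 - ‖z.snd‖ ^ 2}

lemma chi_supp (hn : 0 < n) {z : W b} (h : chi ε r₀ R₁ n z ≠ 0) :
    r₀ < ‖z.fst‖ ∧ ‖z.fst‖ < R₁ ∧ 1 / n < ε ^ 2 * (1 - ‖z.fst‖) ^ 2 - ‖z.snd‖ ^ 2 := by
  have key : ∀ t : ℝ, Real.smoothTransition (n * t - 1) ≠ 0 → 1 / n < t := by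
    intro t ht
    by_contra hc
    push Not at hc
    apply ht
    apply Real.smoothTransition.zero_of_nonpos
    have : n * t ≤ n * (1 / n) := mul_le_mul_of_nonneg_left hc hn.le
    rw [mul_one_div_cancel hn.ne'] at this
    linarith
  unfold chi at h
  obtain ⟨h12, h3⟩ := mul_ne_zero_iff.1 h
  obtain ⟨h1, h2⟩ := mul_ne_zero_iff.1 h12
  have hn' : 0 < 1 / n := by positivity
  refine ⟨?_, ?_, key _ h3⟩
  · have := key _ h1
    linarith
  · have := key _ h2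
    linarith

lemma cont_fst : Continuous (fun z : W b => z.fst) := WithLp.continuous_fst 2 ℂ (B b)
lemma cont_snd : Continuous (fun z : W b => z.snd) := WithLp.continuous_snd 2 ℂ (B b)

lemma isClosed_Kc : IsClosed (Kc b ε r₀ R₁ n) := by
  have h1 : Continuous (fun z : W b => ‖z.fst‖) := cont_fst.norm
  have h2 : Continuous (fun z : W b => ‖z.snd‖) := cont_snd.norm
  have h3 : Continuous (fun z : W b => ε ^ 2 * (1 - ‖z.fst‖) ^ 2 - ‖z.snd‖ ^ 2) := by fun_prop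
  have c1 : IsClosed {z : W b | r₀ ≤ ‖z.fst‖} := isClosed_le continuous_const h1
  have c2 : IsClosed {z : W b | ‖z.fst‖ ≤ R₁} := isClosed_le h1 continuous_const
  have c3 : IsClosed {z : W b | 1 / n ≤ ε ^ 2 * (1 - ‖z.fst‖) ^ 2 - ‖z.snd‖ ^ 2} :=
    isClosed_le continuous_const h3
  exact c1.inter (c2.inter c3)

lemma Kc_sub (hε : 0 < ε) (hR : R₁ < 1) (hn : 0 < n) : Kc b ε r₀ R₁ n ⊆ Om b ε := by
  rintro z ⟨h1, h2, h3⟩
  have hn' : 0 < 1 / n := by positivity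
  have h4 : ‖z.snd‖ ^ 2 < (ε * (1 - ‖z.fst‖)) ^ 2 := by nlinarith
  have h5 : 0 ≤ ε * (1 - ‖z.fst‖) := mul_nonneg hε.le (by linarith)
  have h6 : ‖z.snd‖ < ε * (1 - ‖z.fst‖) := lt_of_pow_lt_pow_left₀ 2 h5 h4
  have h7 : ‖z.snd‖ / ε < 1 - ‖z.fst‖ := by
    rw [div_lt_iff₀ hε]
    linarith
  show ‖z.fst‖ + ‖z.snd‖ / ε < 1
  linarith

lemma Om_bdd (hε : 0 < ε) : Om b ε ⊆ closedBall 0 (1 + ε) := by
  intro z hz
  have h0 : ‖z.fst‖ + ‖z.snd‖ / ε < 1 := hz
  have h1 : 0 ≤ ‖z.snd‖ / ε := by positivity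
  have h2 := norm_nonneg z.fst
  have h3 : ‖z.snd‖ < ε := by
    have : ‖z.snd‖ / ε < 1 := by linarith
    rwa [div_lt_one hε] at this
  rw [mem_closedBall_zero_iff, WithLp.prod_norm_eq_of_L2]
  apply Real.sqrt_le_iff.2
  constructor
  · linarith
  · have h4 := norm_nonneg z.snd
    have : ‖z.fst‖ < 1 := by linarith
    nlinarith

lemma isCompact_Kc (hε : 0 < ε) (hR : R₁ < 1) (hn : 0 < n) : IsCompact (Kc b ε r₀ R₁ n) :=
  Metric.isCompact_of_isClosed_isBounded isClosed_Kc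
    (isBounded_closedBall.subset ((Kc_sub hε hR hn).trans (Om_bdd hε)))

lemma isOpen_Om : IsOpen (Om b ε) := by
  have h1 : Continuous (fun z : W b => ‖z.fst‖) := cont_fst.norm
  have h2 : Continuous (fun z : W b => ‖z.snd‖) := cont_snd.norm
  exact isOpen_lt (h1.add (h2.div_const ε)) continuous_const

lemma contDiff_kf (hr : 0 < r₀) (hn : 0 < n) (hσ : 0 < σ) :
    ContDiff ℝ 1 (kf (b := b) ε r₀ R₁ n u σ) := by
  rw [contDiff_iff_contDiffAt]
  intro z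
  by_cases hz : z.fst = 0
  · have h : kf (b := b) ε r₀ R₁ n u σ =ᶠ[𝓝 z] fun _ => 0 := by
      have ho : IsOpen {w : W b | ‖w.fst‖ < r₀} := isOpen_lt cont_fst.norm continuous_const
      filter_upwards [ho.mem_nhds (show ‖z.fst‖ < r₀ by rw [hz, norm_zero]; exact hr)] with w hw
      unfold kf
      have h0 : chi ε r₀ R₁ n w = 0 := by
        by_contra hc
        have := (chi_supp hn hc).1
        have hw' : ‖w.fst‖ < r₀ := hw
        linarith
      rw [h0, zero_mul]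
    exact contDiffAt_const.congr_of_eventuallyEq h
  · have f1 : ContDiffAt ℝ 1 (fun z : W b => z.fst) z :=
      (WithLp.fstL 2 ℝ ℂ (B b)).contDiff.contDiffAt
    have f2 : ContDiffAt ℝ 1 (fun z : W b => z.snd) z :=
      (WithLp.sndL 2 ℝ ℂ (B b)).contDiff.contDiffAt
    have f3 : ContDiffAt ℝ 1 (fun z : W b => ‖z.fst‖) z := f1.norm ℝ hz
    have f4 : ContDiffAt ℝ 1 (fun z : W b => ‖z.snd‖ ^ 2) z := f2.norm_sq ℝ
    have f5 : ContDiffAt ℝ 1 (fun z : W b => (z.fst * u).im) z :=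
      Complex.imCLM.contDiff.contDiffAt.comp z (f1.mul contDiffAt_const)
    have hne : ‖z.fst‖ ≠ 0 := norm_ne_zero_iff.2 hz
    have hne2 : σ * ‖z.fst‖ ≠ 0 := mul_ne_zero hσ.ne' hne
    have st : ∀ {g : W b → ℝ}, ContDiffAt ℝ 1 g z →
        ContDiffAt ℝ 1 (fun z => Real.smoothTransition (g z)) z := fun hg =>
      Real.smoothTransition.contDiff.contDiffAt.comp z hg
    unfold kf chi ang
    refine ContDiffAt.mul ((ContDiffAt.mul (st ?_) (st ?_)).mul (st ?_)) ?_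
    · exact (contDiffAt_const.mul (f3.sub contDiffAt_const)).sub contDiffAt_const
    · exact (contDiffAt_const.mul (contDiffAt_const.sub f3)).sub contDiffAt_const
    · exact (contDiffAt_const.mul ((contDiffAt_const.mul ((contDiffAt_const.sub f3).pow 2)).sub
        f4)).sub contDiffAt_const
    · refine ContDiffAt.div ?_ f3 hne
      exact S_contDiff.contDiffAt.comp z (f5.div (contDiffAt_const.mul f3) hne2)

lemma chi_rot (z : W b) (θ : ℝ) : chi ε r₀ R₁ n (rot z θ) = chi ε r₀ R₁ n z := by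
  unfold chi
  rw [rot_norm, rot_snd]

lemma fderiv_kf (hr : 0 < r₀) (hn : 0 < n) (hσ : 0 < σ) (z : W b) :
    fderiv ℝ (kf (b := b) ε r₀ R₁ n u σ) z (J b z) = chi ε r₀ R₁ n z * Hd u σ z.fst := by
  have h1 : HasDerivAt (fun θ => kf (b := b) ε r₀ R₁ n u σ (rot z θ))
      (fderiv ℝ (kf (b := b) ε r₀ R₁ n u σ) z (J b z)) 0 := by
    have hd : HasFDerivAt (kf (b := b) ε r₀ R₁ n u σ)
        (fderiv ℝ (kf (b := b) ε r₀ R₁ n u σ) z) (rot z 0) := by
      rw [rot_zero]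
      exact ((contDiff_kf hr hn hσ).differentiable (by norm_num) z).hasFDerivAt
    exact hd.comp_hasDerivAt 0 (rot_deriv z)
  have h2 : HasDerivAt (fun θ => kf (b := b) ε r₀ R₁ n u σ (rot z θ))
      (chi ε r₀ R₁ n z * Hd u σ z.fst) 0 := by
    have e : (fun θ => kf (b := b) ε r₀ R₁ n u σ (rot z θ)) = fun θ => chi ε r₀ R₁ n z *
        (S (((z.fst * u).im * Real.cos θ + (z.fst * u).re * Real.sin θ) / (σ * ‖z.fst‖)) /
          ‖z.fst‖) := by
      funext θ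
      unfold kf ang
      rw [chi_rot, rot_norm, rot_im]
    rw [e]
    unfold Hd
    have h3 : HasDerivAt (fun θ => ((z.fst * u).im * Real.cos θ + (z.fst * u).re * Real.sin θ) /
        (σ * ‖z.fst‖)) (((z.fst * u).im * (-Real.sin 0) + (z.fst * u).re * Real.cos 0) /
        (σ * ‖z.fst‖)) 0 :=
      (((Real.hasDerivAt_cos 0).const_mul _).add ((Real.hasDerivAt_sin 0).const_mul _)).div_const _
    have h4 := (S_deriv (((z.fst * u).im * Real.cos 0 + (z.fst * u).re * Real.sin 0) /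
      (σ * ‖z.fst‖))).comp 0 h3
    have h5 := (h4.div_const ‖z.fst‖).const_mul (chi ε r₀ R₁ n z)
    simp only [Real.sin_zero, neg_zero, mul_zero, Real.cos_zero, mul_one, add_zero, zero_add]
      at h5
    exact h5
  exact h1.unique h2

lemma dv_fld (hr : 0 < r₀) (hn : 0 < n) (hσ : 0 < σ) (z : W b) :
    dv (fld (b := b) ε r₀ R₁ n u σ) z = chi ε r₀ R₁ n z * Hd u σ z.fst := by
  have h := Div.dv_smul (g := kf (b := b) ε r₀ R₁ n u σ) (φ := fun y => J b y) (x := z)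
    ((contDiff_kf hr hn hσ).differentiable (by norm_num) z) (J b).differentiableAt
  rw [dv_J, mul_zero, zero_add, fderiv_kf hr hn hσ] at h
  exact h

lemma tst_fld (hε : 0 < ε) (hr : 0 < r₀) (hR : R₁ < 1) (hn : 0 < n) (hσ : 0 < σ) :
    Tst (Om b ε) (fld (b := b) ε r₀ R₁ n u σ) := by
  have hs : Function.support (fld (b := b) ε r₀ R₁ n u σ) ⊆ Kc b ε r₀ R₁ n := by
    intro z hz
    rw [Function.mem_support] at hz
    have h1 : chi ε r₀ R₁ n z ≠ 0 := by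
      intro h0
      apply hz
      unfold fld kf
      rw [h0, zero_mul, zero_smul]
    obtain ⟨h2, h3, h4⟩ := chi_supp hn h1
    exact ⟨h2.le, h3.le, h4.le⟩
  refine ⟨(contDiff_kf hr hn hσ).smul (J b).contDiff,
    HasCompactSupport.of_support_subset_isCompact (isCompact_Kc hε hR hn) hs,
    (closure_minimal hs isClosed_Kc).trans (Kc_sub hε hR hn), ?_⟩
  intro z
  unfold fld kf ang
  rw [norm_smul, J_norm, norm_mul, Real.norm_of_nonneg (chi_nonneg z), norm_div, norm_norm]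
  by_cases hz : ‖z.fst‖ = 0
  · rw [hz, mul_zero]
    exact zero_le_one
  · rw [mul_assoc, div_mul_cancel₀ _ hz]
    exact mul_le_one₀ (chi_le_one z) (norm_nonneg _) (S_abs _)

end Pool.Agent.Q94.CN.T4L
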