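import Pool.Agent.Q94.CN.T4B

/-!
# T4, part D: the integral over the wedge (helper285 for helper94)
-/

set_option autoImplicit false

namespace Pool.Agent.Q94.CN.T4L

open MeasureTheory Set Metric Filter Topology Pool.Agent.TH703.Cone
open scoped ENNReal InnerProductSpace

/-- the limit of the divergences on the wedge -/
noncomputable def Gf (u : ℂ) (σ r₀ R₁ : ℝ) (x : ℂ) : ℝ :=
  if r₀ < ‖x‖ ∧ ‖x‖ < R₁ ∧ 0 < (x * u).re then Hd u σ x else 0

variable {ε r₀ R₁ σ : ℝ} {u : ℂ}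

lemma meas_Hd : Measurable (Hd u σ) := by
  unfold Hd
  have h1 : Measurable (fun x : ℂ => (x * u).im) :=
    Complex.measurable_im.comp (measurable_id.mul_const u)
  have h2 : Measurable (fun x : ℂ => (x * u).re) :=
    Complex.measurable_re.comp (measurable_id.mul_const u)
  have h3 : Measurable (fun x : ℂ => ‖x‖) := measurable_norm
  have h4 := s'_cont.measurable.comp (h1.div (h3.const_mul σ))
  exact (h4.mul (h2.div (h3.const_mul σ))).div h3

lemma meas_cond : MeasurableSet {x : ℂ | r₀ < ‖x‖ ∧ ‖x‖ < R₁ ∧ 0 < (x * u).re} := by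
  have h2 : Measurable (fun x : ℂ => (x * u).re) :=
    Complex.measurable_re.comp (measurable_id.mul_const u)
  have h3 : Measurable (fun x : ℂ => ‖x‖) := measurable_norm
  exact (measurableSet_lt measurable_const h3).inter ((measurableSet_lt h3 measurable_const).inter
    (measurableSet_lt measurable_const h2))

lemma meas_Gf : Measurable (Gf u σ r₀ R₁) := Measurable.ite meas_cond meas_Hd measurable_const

lemma Hd_nonneg (hσ : 0 < σ) {x : ℂ} (hx : 0 ≤ (x * u).re) : 0 ≤ Hd u σ x := by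
  unfold Hd
  have := s'_nonneg ((x * u).im / (σ * ‖x‖))
  positivity

lemma Gf_nonneg (hσ : 0 < σ) (x : ℂ) : 0 ≤ Gf u σ r₀ R₁ x := by
  unfold Gf
  split_ifs with h
  · exact Hd_nonneg hσ h.2.2.le
  · exact le_rfl

lemma rad_int (b : ℕ) (h : r₀ ≤ R₁) (hr : 0 < r₀) :
    ∫ ρ in Ioi (0 : ℝ), (if r₀ < ρ ∧ ρ < R₁ then (1 - ρ) ^ b else 0) =
      ∫ ρ in r₀..R₁, (1 - ρ) ^ b := by
  rw [intervalIntegral.integral_of_le h, integral_Ioc_eq_integral_Ioo]
  have e : (fun ρ : ℝ => if r₀ < ρ ∧ ρ < R₁ then (1 - ρ) ^ b else 0) =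
      (Ioo r₀ R₁).indicator (fun ρ => (1 - ρ) ^ b) := by
    funext ρ
    simp only [indicator, mem_Ioo]
  rw [e, setIntegral_indicator measurableSet_Ioo]
  congr 2
  ext ρ
  simp only [mem_inter_iff, mem_Ioi, mem_Ioo]
  constructor
  · exact fun h => h.2
  · exact fun h => ⟨hr.trans h.1, h⟩

lemma ang_int (h0 : 0 < σ) (h1 : σ ≤ 1) :
    ∫ θ in Ioo (-Real.pi) Real.pi, (if 0 < Real.cos θ then
      s' (Real.sin θ / σ) * (Real.cos θ / σ) else 0) = 2 := by
  rw [← S_int h0 h1, intervalIntegral.integral_of_le (by have := Real.pi_pos; linarith),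
    integral_Ioc_eq_integral_Ioo]
  have e : ∀ θ ∈ Ioo (-Real.pi) Real.pi, (if 0 < Real.cos θ then
      s' (Real.sin θ / σ) * (Real.cos θ / σ) else 0) =
      (Ioo (-(Real.pi / 2)) (Real.pi / 2)).indicator
        (fun θ => s' (Real.sin θ / σ) * (Real.cos θ / σ)) θ := by
    intro θ hθ
    by_cases h : θ ∈ Ioo (-(Real.pi / 2)) (Real.pi / 2)
    · rw [indicator_of_mem h, if_pos (Real.cos_pos_of_mem_Ioo h)]
    · rw [indicator_of_notMem h, if_neg]
      rw [not_lt, ← Real.cos_abs]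
      apply Real.cos_nonpos_of_pi_div_two_le_of_le
      · by_contra hc
        push Not at hc
        exact h ⟨by have := neg_abs_le θ; linarith, (le_abs_self θ).trans_lt hc⟩
      · have : |θ| < Real.pi := abs_lt.2 hθ
        have := Real.pi_pos
        linarith
  rw [setIntegral_congr_fun measurableSet_Ioo e, setIntegral_indicator measurableSet_Ioo]
  congr 2
  ext θ
  simp only [mem_inter_iff, mem_Ioo]
  have := Real.pi_pos
  constructor
  · exact fun h => h.2
  · exact fun h => ⟨⟨by linarith [h.1], by linarith [h.2]⟩, h⟩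

lemma plane_int (b : ℕ) (h : r₀ ≤ R₁) (hr : 0 < r₀) (h0 : 0 < σ) (h1 : σ ≤ 1) :
    ∫ x : ℂ, Gf 1 σ r₀ R₁ x * (1 - ‖x‖) ^ b = 2 * ∫ ρ in r₀..R₁, (1 - ρ) ^ b := by
  rw [← Complex.integral_comp_polarCoord_symm]
  have e : ∀ p ∈ polarCoord.target, p.1 • (Gf 1 σ r₀ R₁ (Complex.polarCoord.symm p) *
      (1 - ‖Complex.polarCoord.symm p‖) ^ b) =
      (if r₀ < p.1 ∧ p.1 < R₁ then (1 - p.1) ^ b else 0) *
      (if 0 < Real.cos p.2 then s' (Real.sin p.2 / σ) * (Real.cos p.2 / σ) else 0) := by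
    rintro ⟨ρ, θ⟩ ⟨hρ, hθ⟩
    have hρ' : 0 < ρ := hρ
    have hn : ‖Complex.polarCoord.symm (ρ, θ)‖ = ρ := by
      rw [Complex.norm_polarCoord_symm]
      exact abs_of_pos hρ'
    have hre : (Complex.polarCoord.symm (ρ, θ) * 1).re = ρ * Real.cos θ := by
      rw [Complex.polarCoord_symm_apply]
      simp only [Complex.mul_re, Complex.mul_im, Complex.add_re, Complex.add_im,
        Complex.ofReal_re, Complex.ofReal_im, Complex.I_re, Complex.I_im, Complex.one_re,
        Complex.one_im]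
      ring
    have him : (Complex.polarCoord.symm (ρ, θ) * 1).im = ρ * Real.sin θ := by
      rw [Complex.polarCoord_symm_apply]
      simp only [Complex.mul_re, Complex.mul_im, Complex.add_re, Complex.add_im,
        Complex.ofReal_re, Complex.ofReal_im, Complex.I_re, Complex.I_im, Complex.one_re,
        Complex.one_im]
      ring
    unfold Gf Hd
    rw [hn, hre, him]
    dsimp only
    have hc : (0 < ρ * Real.cos θ) ↔ 0 < Real.cos θ := by
      constructor
      · intro h; exact (mul_pos_iff_of_pos_left hρ').1 h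
      · intro h; exact mul_pos hρ' h
    have e1 : ρ * Real.sin θ / (σ * ρ) = Real.sin θ / σ := by field_simp
    have e2 : ρ * Real.cos θ / (σ * ρ) = Real.cos θ / σ := by field_simp
    rw [e1, e2, smul_eq_mul]
    by_cases a1 : r₀ < ρ ∧ ρ < R₁
    · by_cases a2 : 0 < Real.cos θ
      · rw [if_pos ⟨a1.1, a1.2, hc.2 a2⟩, if_pos a1, if_pos a2]
        field_simp
      · rw [if_neg (fun h => a2 (hc.1 h.2.2)), if_neg a2]
        ring
    · rw [if_neg (fun h => a1 ⟨h.1, h.2.1⟩), if_neg a1]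
      ring
  rw [setIntegral_congr_fun polarCoord.open_target.measurableSet e]
  have ht : polarCoord.target = Ioi (0 : ℝ) ×ˢ Ioo (-Real.pi) Real.pi := rfl
  rw [ht, Measure.volume_eq_prod,
    setIntegral_prod_mul (fun ρ : ℝ => if r₀ < ρ ∧ ρ < R₁ then (1 - ρ) ^ b else 0)
      (fun θ : ℝ => if 0 < Real.cos θ then s' (Real.sin θ / σ) * (Real.cos θ / σ) else 0),
    rad_int b h hr, ang_int h0 h1]
  ring

lemma plane_int_u (b : ℕ) (hu : ‖u‖ = 1) (h : r₀ ≤ R₁) (hr : 0 < r₀) (h0 : 0 < σ) (h1 : σ ≤ 1) :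
    ∫ x : ℂ, Gf u σ r₀ R₁ x * (1 - ‖x‖) ^ b = 2 * ∫ ρ in r₀..R₁, (1 - ρ) ^ b := by
  rw [← plane_int b h hr h0 h1]
  have hu0 : u ≠ 0 := by
    intro h0
    rw [h0, norm_zero] at hu
    exact zero_ne_one hu
  let a : Circle := ⟨u⁻¹, mem_sphere_zero_iff_norm.2 (by rw [norm_inv, hu, inv_one])⟩
  have ha : (a : ℂ) = u⁻¹ := rfl
  rw [← (rotation a).measurePreserving.integral_comp
    (rotation a).toHomeomorph.measurableEmbedding]
  refine integral_congr_ae (Eventually.of_forall fun x => ?_)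
  have e1 : ‖rotation a x‖ = ‖x‖ := (rotation a).norm_map x
  have e2 : rotation a x * u = x * 1 := by
    rw [rotation_apply, ha]
    field_simp
  dsimp only
  unfold Gf Hd
  rw [e1, e2]

/-- the integral of the limit over the body -/
lemma body_int (h7 : S_T7a) {b : ℕ} (hb : 1 ≤ b) (hε : 0 < ε) (hu : ‖u‖ = 1) (h : r₀ ≤ R₁)
    (hr : 0 < r₀) (hR : R₁ < 1) (h0 : 0 < σ) (h1 : σ ≤ 1) :
    ∫ z in Om b ε, Gf u σ r₀ R₁ z.fst = vb b ε * (2 * ∫ ρ in r₀..R₁, (1 - ρ) ^ b) := by
  rw [integral_eq_lintegral_of_nonneg_ae (Eventually.of_forall fun z => Gf_nonneg h0 _)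
    ((meas_Gf.comp cont_fst.measurable).aestronglyMeasurable)]
  have e1 := h7 b ε hb hε (fun x => ENNReal.ofReal (Gf u σ r₀ R₁ x)) meas_Gf.ennreal_ofReal
  rw [e1, ENNReal.toReal_mul, ENNReal.toReal_ofReal (by unfold vb; positivity)]
  congr 1
  rw [← plane_int_u b hu h hr h0 h1]
  have e2 : ∫ x : ℂ, Gf u σ r₀ R₁ x * (1 - ‖x‖) ^ b =
      ∫ x in ball (0 : ℂ) 1, Gf u σ r₀ R₁ x * (1 - ‖x‖) ^ b := by
    refine (setIntegral_eq_integral_of_forall_compl_eq_zero fun x hx => ?_).symm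
    rw [mem_ball_zero_iff, not_lt] at hx
    unfold Gf
    rw [if_neg (fun h => by linarith [h.2.1]), zero_mul]
  have hm : Measurable (fun x : ℂ => Gf u σ r₀ R₁ x * (1 - ‖x‖) ^ b) :=
    meas_Gf.mul ((measurable_const.sub measurable_norm).pow_const b)
  rw [e2, integral_eq_lintegral_of_nonneg_ae _ hm.aestronglyMeasurable]
  · congr 1
    refine setLIntegral_congr_fun measurableSet_ball fun x hx => ?_
    rw [ENNReal.ofReal_mul (Gf_nonneg h0 _)]
  · refine (ae_restrict_iff' measurableSet_ball).2 (Eventually.of_forall fun x hx => ?_)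
    rw [mem_ball_zero_iff] at hx
    exact mul_nonneg (Gf_nonneg h0 _) (pow_nonneg (by linarith) _)

end Pool.Agent.Q94.CN.T4L
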