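import Pool.Agent.TH703.Cone.Stm
import Pool.Agent.TH703.Cone.Trans

set_option autoImplicit false

/-!
# T5: the fibres are almost full or almost empty

Lemma job D for MP_65ff7c_an (frozen statement S04892), statement `S_T5` of
`Pool.Agent.TH703.Cone.Stm`. Written by helper264.
-/

namespace Pool.Agent.Q94.CN

open MeasureTheory Set Metric
open scoped ENNReal
open Pool.Agent.TH703.Cone

section T5

variable {b : ℕ}

lemma om_fst_snd {ε : ℝ} {x : ℂ} {y : B b} (h : (WithLp.toLp 2 (x, y) : W b) ∈ Om b ε) :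
    ‖x‖ + ‖y‖ / ε < 1 := h

lemma om_snd_lt {ε : ℝ} (hε : 0 < ε) {x : ℂ} {y : B b}
    (h : (WithLp.toLp 2 (x, y) : W b) ∈ Om b ε) : ‖y‖ < ε := by
  have h1 := om_fst_snd h
  have h2 : ‖y‖ / ε < 1 := by linarith [norm_nonneg x]
  rwa [div_lt_one hε] at h2

lemma continuous_w : Continuous fun z : W b => (z.fst : ℂ) := by fun_prop

lemma isOpen_om (ε : ℝ) : IsOpen (Om b ε) := by
  have h1 : Continuous fun z : W b => ‖z.fst‖ + ‖z.snd‖ / ε := by fun_prop
  exact isOpen_Iio.preimage h1

lemma convex_om {ε : ℝ} (hε : 0 < ε) : Convex ℝ (Om b ε) := by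
  intro z hz w hw s t hs ht hst
  have hz' : ‖z.fst‖ + ‖z.snd‖ / ε < 1 := hz
  have hw' : ‖w.fst‖ + ‖w.snd‖ / ε < 1 := hw
  show ‖(s • z + t • w).fst‖ + ‖(s • z + t • w).snd‖ / ε < 1
  have h1 : ‖(s • z + t • w).fst‖ ≤ s * ‖z.fst‖ + t * ‖w.fst‖ := by
    have : (s • z + t • w).fst = s • z.fst + t • w.fst := rfl
    rw [this]
    refine (norm_add_le _ _).trans ?_
    rw [norm_smul, norm_smul, Real.norm_of_nonneg hs, Real.norm_of_nonneg ht]
  have h2 : ‖(s • z + t • w).snd‖ ≤ s * ‖z.snd‖ + t * ‖w.snd‖ := by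
    have : (s • z + t • w).snd = s • z.snd + t • w.snd := rfl
    rw [this]
    refine (norm_add_le _ _).trans ?_
    rw [norm_smul, norm_smul, Real.norm_of_nonneg hs, Real.norm_of_nonneg ht]
  have h3 : ‖(s • z + t • w).snd‖ / ε ≤ (s * ‖z.snd‖ + t * ‖w.snd‖) / ε :=
    div_le_div_of_nonneg_right h2 hε.le
  have h4 : s * ‖z.fst‖ + t * ‖w.fst‖ + (s * ‖z.snd‖ + t * ‖w.snd‖) / ε =
      s * (‖z.fst‖ + ‖z.snd‖ / ε) + t * (‖w.fst‖ + ‖w.snd‖ / ε) := by ring
  have h5 : s * (‖z.fst‖ + ‖z.snd‖ / ε) + t * (‖w.fst‖ + ‖w.snd‖ / ε) < s * 1 + t * 1 := by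
    rcases hs.lt_or_eq with hs' | hs'
    · have := mul_lt_mul_of_pos_left hz' hs'
      have := mul_le_mul_of_nonneg_left hw'.le ht
      linarith
    · have ht' : 0 < t := by linarith
      have := mul_lt_mul_of_pos_left hw' ht'
      have := mul_le_mul_of_nonneg_left hz'.le hs
      linarith
  linarith

lemma bounded_om {ε : ℝ} (hε : 0 < ε) : Bornology.IsBounded (Om b ε) := by
  rw [isBounded_iff_forall_norm_le]
  refine ⟨1 + ε, fun z hz => ?_⟩
  have hz' : ‖z.fst‖ + ‖z.snd‖ / ε < 1 := hz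
  have h1 : ‖z.fst‖ ≤ 1 := by
    have : 0 ≤ ‖z.snd‖ / ε := by positivity
    linarith
  have h2 : ‖z.snd‖ ≤ ε := by
    have : ‖z.snd‖ / ε < 1 := by linarith [norm_nonneg z.fst]
    rw [div_lt_one hε] at this
    exact this.le
  have h3 : z = WithLp.toLp 2 (z.fst, 0) + WithLp.toLp 2 (0, z.snd) := by
    apply (WithLp.equiv 2 _).injective
    ext <;> simp
  have h4 : ‖z‖ ≤ ‖z.fst‖ + ‖z.snd‖ := by
    calc ‖z‖ = ‖(WithLp.toLp 2 (z.fst, 0) : W b) + WithLp.toLp 2 (0, z.snd)‖ := by rw [← h3]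
      _ ≤ _ := norm_add_le _ _
      _ = _ := by rw [WithLp.norm_toLp_fst, WithLp.norm_toLp_snd]
  linarith

/-- Tonelli for sets -/
lemma volume_eq_prod {S : Set (W b)} (hS : MeasurableSet S) :
    volume S = ∫⁻ p : ℂ × B b, S.indicator (fun _ => (1 : ℝ≥0∞)) (WithLp.toLp 2 p) := by
  have h1 := (WithLp.volume_preserving_toLp ℂ (B b)).measure_preimage hS.nullMeasurableSet
  have hm : MeasurableSet ((@WithLp.toLp 2 (ℂ × B b)) ⁻¹' S) :=
    WithLp.measurable_toLp 2 _ hS
  rw [← h1, ← lintegral_indicator_one hm]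
  rfl

/-- the integrand -/
noncomputable def ff (A A' : Set (W b)) (p : ℂ × B b) (w : B b) : ℝ≥0∞ :=
  A.indicator (fun _ => (1 : ℝ≥0∞)) (WithLp.toLp 2 p) *
    A'.indicator (fun _ => (1 : ℝ≥0∞)) (WithLp.toLp 2 (p.1, p.2 + w))

lemma measurable_ff {A A' : Set (W b)} (hA : MeasurableSet A) (hA' : MeasurableSet A') :
    Measurable fun q : (ℂ × B b) × B b => ff A A' q.1 q.2 := by
  unfold ff
  refine Measurable.mul ?_ ?_
  · exact (measurable_const.indicator hA).comp ((WithLp.measurable_toLp 2 _).comp measurable_fst)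
  · refine (measurable_const.indicator hA').comp ((WithLp.measurable_toLp 2 _).comp ?_)
    fun_prop

lemma measurableSet_fib {A : Set (W b)} (hA : MeasurableSet A) (x : ℂ) :
    MeasurableSet (fib A x) := by
  have h : Measurable fun y : B b => (WithLp.toLp 2 (x, y) : W b) :=
    (WithLp.measurable_toLp 2 _).comp (by fun_prop)
  exact h hA

/-- the product of the volumes of the fibres -/
lemma fib_mul {ε : ℝ} (hε : 0 < ε) {A A' : Set (W b)} (hA : MeasurableSet A)
    (hA' : MeasurableSet A') (h1 : A ⊆ Om b ε) (h2 : A' ⊆ Om b ε) (x : ℂ) :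
    volume (fib A x) * volume (fib A' x) =
      ∫⁻ y : B b, ∫⁻ w in ball (0 : B b) (2 * ε), ff A A' (x, y) w := by
  have key : ∀ y : B b, ∫⁻ w in ball (0 : B b) (2 * ε), ff A A' (x, y) w =
      (fib A x).indicator (fun _ => volume (fib A' x)) y := by
    intro y
    by_cases hy : y ∈ fib A x
    · rw [indicator_of_mem hy]
      have hyA : (WithLp.toLp 2 (x, y) : W b) ∈ A := hy
      have e1 : ∀ w : B b, (ball (0 : B b) (2 * ε)).indicator (fun w => ff A A' (x, y) w) w =
          (fib A' x).indicator (fun _ => (1 : ℝ≥0∞)) (y + w) := by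
        intro w
        have hff : ff A A' (x, y) w =
            A'.indicator (fun _ => (1 : ℝ≥0∞)) (WithLp.toLp 2 (x, y + w)) := by
          unfold ff
          rw [indicator_of_mem hyA, one_mul]
        by_cases hw : (WithLp.toLp 2 (x, y + w) : W b) ∈ A'
        · have hwb : w ∈ ball (0 : B b) (2 * ε) := by
            rw [mem_ball_zero_iff]
            have a1 := om_snd_lt hε (h1 hyA)
            have a2 := om_snd_lt hε (h2 hw)
            have a3 : w = (y + w) - y := by abel
            calc ‖w‖ = ‖(y + w) - y‖ := by rw [← a3]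
              _ ≤ ‖y + w‖ + ‖y‖ := norm_sub_le _ _
              _ < 2 * ε := by linarith
          rw [indicator_of_mem hwb]
          show ff A A' (x, y) w = _
          rw [hff, indicator_of_mem hw, indicator_of_mem (show y + w ∈ fib A' x from hw)]
        · rw [indicator_of_notMem (show y + w ∉ fib A' x from hw)]
          by_cases hwb : w ∈ ball (0 : B b) (2 * ε)
          · rw [indicator_of_mem hwb]
            show ff A A' (x, y) w = _
            rw [hff, indicator_of_notMem hw]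
          · rw [indicator_of_notMem hwb]
      rw [← lintegral_indicator measurableSet_ball]
      calc ∫⁻ w, (ball (0 : B b) (2 * ε)).indicator (fun w => ff A A' (x, y) w) w
          = ∫⁻ w, (fib A' x).indicator (fun _ => (1 : ℝ≥0∞)) (y + w) := by
            exact lintegral_congr e1
        _ = ∫⁻ w, (fib A' x).indicator (fun _ => (1 : ℝ≥0∞)) w :=
            lintegral_add_left_eq_self _ y
        _ = volume (fib A' x) := by
            rw [lintegral_indicator (measurableSet_fib hA' x)]; simp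
    · rw [indicator_of_notMem hy]
      have hyA : (WithLp.toLp 2 (x, y) : W b) ∉ A := hy
      have : ∀ w, ff A A' (x, y) w = 0 := by
        intro w; unfold ff; rw [indicator_of_notMem hyA, zero_mul]
      simp [this]
  rw [lintegral_congr key, lintegral_indicator (measurableSet_fib hA x)]
  simp [mul_comm]

/-- the slice for fixed `w` -/
lemma slice {A A' : Set (W b)} (hA : MeasurableSet A) (hA' : MeasurableSet A') (w : B b) :
    ∫⁻ p : ℂ × B b, ff A A' p w =
      volume {z : W b | z ∈ A ∧ z + WithLp.toLp 2 (0, w) ∈ A'} := by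
  have hm : MeasurableSet {z : W b | z ∈ A ∧ z + WithLp.toLp 2 (0, w) ∈ A'} :=
    hA.inter ((measurable_id.add_const (WithLp.toLp 2 (0, w) : W b)) hA')
  rw [volume_eq_prod hm]
  refine lintegral_congr fun p => ?_
  unfold ff
  have hadd : (WithLp.toLp 2 (p.1, p.2 + w) : W b) =
      WithLp.toLp 2 p + WithLp.toLp 2 ((0 : ℂ), w) := by
    apply (WithLp.equiv 2 _).injective
    ext <;> simp
  rw [hadd]
  by_cases ha : (WithLp.toLp 2 p : W b) ∈ A
  · by_cases hb : (WithLp.toLp 2 p : W b) + WithLp.toLp 2 ((0 : ℂ), w) ∈ A'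
    · have hc : (WithLp.toLp 2 p : W b) ∈
          {z : W b | z ∈ A ∧ z + WithLp.toLp 2 ((0 : ℂ), w) ∈ A'} := ⟨ha, hb⟩
      rw [indicator_of_mem ha, indicator_of_mem hb, indicator_of_mem hc, one_mul]
    · rw [indicator_of_notMem hb, mul_zero, indicator_of_notMem]
      exact fun h => hb h.2
  · rw [indicator_of_notMem ha, zero_mul, indicator_of_notMem]
    exact fun h => ha h.1

/-- **T5.** -/
theorem t5 : S_T5 := by
  intro b ε P A hb hε hA hAΩ hP h
  have hΩ : MeasurableSet (Om b ε) := (isOpen_om ε).measurableSet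
  have hA' : MeasurableSet (Om b ε \ A) := hΩ.diff hA
  have hA'Ω : Om b ε \ A ⊆ Om b ε := sdiff_subset
  have : Nonempty (Fin b) := ⟨⟨0, hb⟩⟩
  have hmeas := measurable_ff hA hA'
  calc ∫⁻ x : ℂ, volume (fib A x) * volume (fib (Om b ε \ A) x)
      = ∫⁻ x : ℂ, ∫⁻ y : B b, ∫⁻ w in ball (0 : B b) (2 * ε), ff A (Om b ε \ A) (x, y) w :=
        lintegral_congr fun x => fib_mul hε hA hA' hAΩ hA'Ω x
    _ = ∫⁻ p : ℂ × B b, ∫⁻ w in ball (0 : B b) (2 * ε), ff A (Om b ε \ A) p w := by
        have hm2 : Measurable fun p : ℂ × B b =>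
            ∫⁻ w in ball (0 : B b) (2 * ε), ff A (Om b ε \ A) p w :=
          hmeas.lintegral_prod_right'
        rw [Measure.volume_eq_prod, lintegral_prod _ hm2.aemeasurable]
    _ = ∫⁻ w in ball (0 : B b) (2 * ε), ∫⁻ p : ℂ × B b, ff A (Om b ε \ A) p w :=
        lintegral_lintegral_swap hmeas.aemeasurable
    _ ≤ ∫⁻ w in ball (0 : B b) (2 * ε), ENNReal.ofReal (2 * ε * P) := by
        refine setLIntegral_mono' measurableSet_ball fun w hw => ?_
        rw [slice hA hA' w]
        refine (t1 (W b) (Om b ε) A P (WithLp.toLp 2 (0, w)) (isOpen_om ε) (convex_om hε)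
          (bounded_om hε) hA hAΩ hP h).trans ?_
        apply ENNReal.ofReal_le_ofReal
        rw [WithLp.norm_toLp_snd]
        rw [mem_ball_zero_iff] at hw
        exact mul_le_mul_of_nonneg_right hw.le hP
    _ = ENNReal.ofReal (2 * ε * P) * volume (ball (0 : B b) (2 * ε)) := by simp
    _ = ENNReal.ofReal (2 ^ (b + 1) * ε * vb b ε * P) := by
        rw [Measure.addHaar_ball_mul volume (0 : B b) (by norm_num : (0 : ℝ) ≤ 2) ε]
        have hfin : volume (ball (0 : B b) ε) ≠ ⊤ := measure_ball_lt_top.ne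
        have hv : volume (ball (0 : B b) ε) = ENNReal.ofReal (vb b ε) := by
          unfold vb
          exact (ofReal_measureReal hfin).symm
        rw [hv, ← ENNReal.ofReal_mul (by positivity), ← ENNReal.ofReal_mul (by positivity)]
        congr 1
        rw [finrank_euclideanSpace_fin]
        ring

end T5

end Pool.Agent.Q94.CN
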