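import Pool.Agent.TH703.Cone.Stm

set_option autoImplicit false

/-! Volumes in the body `Om b ε` (parts T7a and T7b). -/

namespace Pool.Agent.Q94.CN

open MeasureTheory Set Metric
open scoped ENNReal
open Pool.Agent.TH703.Cone

theorem measurableSet_Om7 (b : ℕ) (ε : ℝ) : MeasurableSet (Om b ε) := by
  have h : Measurable fun z : W b => ‖z.fst‖ + ‖z.snd‖ / ε := by
    have h1 : Continuous fun z : W b => ‖z.fst‖ := by fun_prop
    have h2 : Continuous fun z : W b => ‖z.snd‖ := by fun_prop
    exact h1.measurable.add (h2.measurable.div_const _)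
  exact measurableSet_lt h measurable_const

theorem measurableSet_cyl7 (b : ℕ) (ε : ℝ) :
    MeasurableSet {p : ℂ × B b | ‖p.1‖ + ‖p.2‖ / ε < 1} := by
  have h : Measurable fun z : ℂ × B b => ‖z.1‖ + ‖z.2‖ / ε := by
    fun_prop
  exact measurableSet_lt h measurable_const

theorem volume_fibre7 (b : ℕ) (ε : ℝ) (hε : 0 < ε) (x : ℂ) :
    volume {y : B b | ‖x‖ + ‖y‖ / ε < 1} =
      (ball (0 : ℂ) 1).indicator (fun x => ENNReal.ofReal ((1 - ‖x‖) ^ b) *
        ENNReal.ofReal (vb b ε)) x := by
  have hset : {y : B b | ‖x‖ + ‖y‖ / ε < 1} = ball (0 : B b) ((1 - ‖x‖) * ε) := by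
    ext y
    change ‖x‖ + ‖y‖ / ε < 1 ↔ y ∈ ball (0 : B b) ((1 - ‖x‖) * ε)
    simp only [mem_ball, dist_zero_right]
    rw [← lt_sub_iff_add_lt', div_lt_iff₀ hε]
  rw [hset]
  by_cases hx : ‖x‖ < 1
  · rw [indicator_of_mem (by simpa using hx)]
    rw [Measure.addHaar_ball_mul_of_pos _ _ (by linarith)]
    simp [vb, measureReal_def, ENNReal.ofReal_toReal, measure_ball_lt_top.ne]
  · rw [indicator_of_notMem (by simpa using hx)]
    rw [ball_eq_empty.2]
    · simp
    · exact mul_nonpos_of_nonpos_of_nonneg (by linarith) hε.le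

theorem t7a : S_T7a := by
  intro b ε _ hε f hf
  have hmp : MeasurePreserving (@WithLp.ofLp 2 (ℂ × B b)) :=
    WithLp.volume_preserving_ofLp ℂ (B b)
  have hOm : MeasurableSet (Om b ε) := measurableSet_Om7 b ε
  set S : Set (ℂ × B b) := {p : ℂ × B b | ‖p.1‖ + ‖p.2‖ / ε < 1} with hS
  have hSm : MeasurableSet S := measurableSet_cyl7 b ε
  set g : ℂ × B b → ℝ≥0∞ := S.indicator (fun p => f p.1) with hg
  have hgm : Measurable g := (hf.comp measurable_fst).indicator hSm
  have h1 : ∫⁻ z in Om b ε, f z.fst = ∫⁻ z : W b, g (WithLp.ofLp z) := by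
    rw [← lintegral_indicator hOm]
    rfl
  rw [h1, hmp.lintegral_comp hgm, Measure.volume_eq_prod, lintegral_prod _ hgm.aemeasurable]
  have h2 : ∀ x : ℂ, ∫⁻ y : B b, g (x, y) = ENNReal.ofReal (vb b ε) *
      (ball (0 : ℂ) 1).indicator (fun x => f x * ENNReal.ofReal ((1 - ‖x‖) ^ b)) x := by
    intro x
    have h3 : ∀ y : B b, g (x, y) = f x * ({y : B b | ‖x‖ + ‖y‖ / ε < 1}).indicator 1 y := by
      intro y
      by_cases h : ‖x‖ + ‖y‖ / ε < 1
      · rw [hg, indicator_of_mem (show (x, y) ∈ S from h), indicator_of_mem (by exact h)]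
        simp
      · rw [hg, indicator_of_notMem (show (x, y) ∉ S from h), indicator_of_notMem (by exact h)]
        simp
    have h4 : MeasurableSet {y : B b | ‖x‖ + ‖y‖ / ε < 1} := by
      have h : Measurable fun y : B b => ‖x‖ + ‖y‖ / ε := by fun_prop
      exact measurableSet_lt h measurable_const
    simp_rw [h3]
    rw [lintegral_const_mul _ (measurable_one.indicator h4), lintegral_indicator_one h4,
      volume_fibre7 b ε hε]
    by_cases hx : x ∈ ball (0 : ℂ) 1
    · rw [indicator_of_mem hx, indicator_of_mem hx]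
      ring
    · rw [indicator_of_notMem hx, indicator_of_notMem hx]
      simp
  simp_rw [h2]
  have h5 : Measurable fun x : ℂ => f x * ENNReal.ofReal ((1 - ‖x‖) ^ b) := by
    fun_prop
  rw [lintegral_const_mul _ (h5.indicator measurableSet_ball),
    lintegral_indicator measurableSet_ball]

theorem integral_disc7 (b : ℕ) (r : ℝ) (hr : 0 ≤ r) :
    ∫ x in ball (0 : ℂ) r, (1 - ‖x‖) ^ b = 2 * Real.pi *
      ((1 - (1 - r) ^ (b + 1) * (1 + (b + 1) * r)) / ((b + 1) * (b + 2))) := by
  have h1 : ∫ x in ball (0 : ℂ) r, (1 - ‖x‖) ^ b =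
      ∫ x : ℂ, (Iio r).indicator (fun s : ℝ => (1 - s) ^ b) ‖x‖ := by
    rw [← integral_indicator measurableSet_ball]
    congr 1
    ext x
    by_cases hx : ‖x‖ < r
    · rw [indicator_of_mem (by simpa using hx), indicator_of_mem (by simpa using hx)]
    · rw [indicator_of_notMem (by simpa using hx), indicator_of_notMem (by simpa using hx)]
  rw [h1, integral_fun_norm_addHaar]
  have h2 : ∫ y in Ioi (0 : ℝ), y ^ (Module.finrank ℝ ℂ - 1) •
      (Iio r).indicator (fun s : ℝ => (1 - s) ^ b) y = ∫ y in (0 : ℝ)..r, y * (1 - y) ^ b := by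
    rw [intervalIntegral.integral_of_le hr, integral_Ioc_eq_integral_Ioo]
    rw [← integral_indicator measurableSet_Ioi, ← integral_indicator measurableSet_Ioo]
    congr 1
    ext y
    rw [Complex.finrank_real_complex]
    by_cases hy : 0 < y
    · rw [indicator_of_mem (by simpa using hy)]
      by_cases hy2 : y < r
      · rw [indicator_of_mem (by simpa using hy2), indicator_of_mem (by exact ⟨hy, hy2⟩)]
        simp
      · rw [indicator_of_notMem (by simpa using hy2), indicator_of_notMem (by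
          rintro ⟨_, h⟩; exact hy2 h)]
        simp
    · rw [indicator_of_notMem (by simpa using hy), indicator_of_notMem (by
          rintro ⟨h, _⟩; exact hy h)]
  rw [h2, Complex.finrank_real_complex]
  have h3 : volume.real (ball (0 : ℂ) 1) = Real.pi := by
    simp [measureReal_def]
  rw [h3]
  have h4 : ∫ y in (0 : ℝ)..r, y * (1 - y) ^ b =
      (-((1 - r) ^ (b + 1) * (1 + (b + 1) * r)) / ((b + 1) * (b + 2))) -
      (-((1 - (0:ℝ)) ^ (b + 1) * (1 + (b + 1) * 0)) / ((b + 1) * (b + 2))) := by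
    apply intervalIntegral.integral_eq_sub_of_hasDerivAt
      (f := fun s : ℝ => (-((1 - s) ^ (b + 1) * (1 + (b + 1) * s)) / ((b + 1) * (b + 2))))
    · intro s _
      have e1 : HasDerivAt (fun s : ℝ => (1 - s) ^ (b + 1))
          ((b + 1 : ℕ) * (1 - s) ^ b * (-1)) s := by
        have := ((hasDerivAt_id s).const_sub 1).fun_pow (b + 1)
        simpa using this
      have e2 : HasDerivAt (fun s : ℝ => 1 + (b + 1 : ℝ) * s) (b + 1 : ℝ) s := by
        simpa using ((hasDerivAt_id s).const_mul (b + 1 : ℝ)).const_add 1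
      have e3 := ((e1.mul e2).neg).div_const ((b + 1 : ℝ) * (b + 2))
      refine e3.congr_deriv ?_
      have hb1 : (b + 1 : ℝ) ≠ 0 := by positivity
      have hb2 : (b + 2 : ℝ) ≠ 0 := by positivity
      push_cast
      field_simp
      ring
    · apply Continuous.intervalIntegrable
      fun_prop
  rw [h4]
  simp only [nsmul_eq_mul, smul_eq_mul]
  push_cast
  ring

theorem t7b : S_T7b := by
  intro b ε r hb hε hr hr1
  have hOm : MeasurableSet (Om b ε) := measurableSet_Om7 b ε
  have hcyl : MeasurableSet {z : W b | ‖z.fst‖ < r} := by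
    have h1 : Continuous fun z : W b => ‖z.fst‖ := by fun_prop
    exact measurableSet_lt h1.measurable measurable_const
  have h1 : volume {z | z ∈ Om b ε ∧ ‖z.fst‖ < r} =
      ∫⁻ z in Om b ε, (ball (0 : ℂ) r).indicator (1 : ℂ → ℝ≥0∞) z.fst := by
    have e : ∀ z : W b, (ball (0 : ℂ) r).indicator (1 : ℂ → ℝ≥0∞) z.fst =
        ({z : W b | ‖z.fst‖ < r}).indicator 1 z := by
      intro z
      by_cases hz : ‖z.fst‖ < r
      · rw [indicator_of_mem (by simpa using hz), indicator_of_mem (by exact hz)]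
        simp
      · rw [indicator_of_notMem (by simpa using hz), indicator_of_notMem (by exact hz)]
    simp_rw [e]
    rw [lintegral_indicator_one hcyl, Measure.restrict_apply hcyl]
    congr 1
    ext z
    simp [and_comm]
  rw [h1, t7a b ε hb hε _ (measurable_one.indicator measurableSet_ball)]
  have h2 : ∫⁻ x in ball (0 : ℂ) 1, (ball (0 : ℂ) r).indicator (1 : ℂ → ℝ≥0∞) x *
      ENNReal.ofReal ((1 - ‖x‖) ^ b) = ∫⁻ x in ball (0 : ℂ) r, ENNReal.ofReal ((1 - ‖x‖) ^ b) := by
    rw [← lintegral_indicator measurableSet_ball, ← lintegral_indicator measurableSet_ball]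
    congr 1
    ext x
    by_cases hx : x ∈ ball (0 : ℂ) r
    · have hx1 : x ∈ ball (0 : ℂ) 1 := ball_subset_ball hr1 hx
      rw [indicator_of_mem hx1, indicator_of_mem hx, indicator_of_mem hx]
      simp
    · rw [indicator_of_notMem hx]
      by_cases hx1 : x ∈ ball (0 : ℂ) 1
      · rw [indicator_of_mem hx1, indicator_of_notMem hx]
        simp
      · rw [indicator_of_notMem hx1]
  rw [h2, ← ofReal_integral_eq_lintegral_ofReal]
  · rw [integral_disc7 b r hr, ← ENNReal.ofReal_mul (by unfold vb; exact measureReal_nonneg)]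
  · have hc : Continuous fun x : ℂ => (1 - ‖x‖) ^ b := by fun_prop
    exact (hc.continuousOn.integrableOn_compact (isCompact_closedBall 0 r)).mono_set
      ball_subset_closedBall
  · refine (ae_restrict_iff' measurableSet_ball).2 (Filter.Eventually.of_forall ?_)
    intro x hx
    have : ‖x‖ < r := by simpa using hx
    have h0 : 0 ≤ 1 - ‖x‖ := by linarith
    simpa using pow_nonneg h0 b

end Pool.Agent.Q94.CN
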